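import Mathlib
import Pool.Agent.Helper96.MP.Defs

/-!
# MP_bde085_nt, module UZ: existence of an admissible function (horoball partition)
-/

set_option autoImplicit false

namespace Pool.Agent.Helper53.MP

open Complex MeasureTheory Filter Topology Pool.Agent.Helper96.MP
open scoped MatrixGroups ContDiff

noncomputable section

/-- height of `z` with respect to the cusp `v.1 / v.2` -/
def ht (v : ℤ × ℤ) (z : ℂ) : ℝ := z.im / normSq ((v.1 : ℂ) - (v.2 : ℂ) * z)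

open Classical in
/-- weights -/
def wt (v : ℤ × ℤ) (z : ℂ) : ℝ :=
  if IsCoprime v.1 v.2 then expNegInvGlue (ht v z - 1 / 2) else 0

lemma wt_nonneg (v : ℤ × ℤ) (z : ℂ) : 0 ≤ wt v z := by
  unfold wt
  split_ifs
  · exact expNegInvGlue.nonneg _
  · exact le_refl _

lemma wt_ne {v : ℤ × ℤ} {z : ℂ} (h : wt v z ≠ 0) : IsCoprime v.1 v.2 ∧ 1 / 2 < ht v z := by
  unfold wt at h
  split_ifs at h with hc
  · refine ⟨hc, ?_⟩
    by_contra hle
    exact h (expNegInvGlue.zero_of_nonpos (by linarith))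
  · exact absurd rfl h

lemma isOpen_UH : IsOpen UH := isOpen_lt continuous_const Complex.continuous_im

lemma sub_ne {v : ℤ × ℤ} (hv : v ≠ 0) {z : ℂ} (hz : z ∈ UH) : ((v.1 : ℂ) - (v.2 : ℂ) * z) ≠ 0 := by
  intro h
  have h1 := congrArg Complex.im h
  have h2 := congrArg Complex.re h
  have hz' : (0 : ℝ) < z.im := hz
  simp at h1 h2
  rcases h1 with h1 | h1
  · rw [h1] at h2
    simp at h2
    exact hv (Prod.ext h2 h1)
  · exact absurd h1 hz'.ne'

lemma normSq_pos' {v : ℤ × ℤ} (hv : v ≠ 0) {z : ℂ} (hz : z ∈ UH) :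
    0 < normSq ((v.1 : ℂ) - (v.2 : ℂ) * z) := normSq_pos.2 (sub_ne hv hz)

lemma cop_ne {v : ℤ × ℤ} (h : IsCoprime v.1 v.2) : v ≠ 0 := by
  rintro rfl
  exact not_isCoprime_zero_zero h

lemma normSq_eq (v : ℤ × ℤ) (z : ℂ) : normSq ((v.1 : ℂ) - (v.2 : ℂ) * z)
    = ((v.1 : ℝ) - v.2 * z.re) ^ 2 + (v.2 * z.im) ^ 2 := by
  rw [normSq_apply]
  simp
  ring

/-- locally finite support -/
lemma box (ε R : ℝ) (hε : 0 < ε) (hR : 0 < R) : ∃ s : Finset (ℤ × ℤ), ∀ z : ℂ, ε < z.im → ‖z‖ < R →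
    ∀ v, v ∉ s → wt v z = 0 := by
  obtain ⟨B, hB⟩ := exists_nat_gt ((2 * R + 1) + (2 * R + 1) / ε * (R + 1))
  refine ⟨(Finset.Icc (-(B : ℤ)) B) ×ˢ (Finset.Icc (-(B : ℤ)) B), fun z hz hzR v hv => ?_⟩
  by_contra hw
  obtain ⟨hc, hh⟩ := wt_ne hw
  apply hv
  have hzU : z ∈ UH := lt_trans hε hz
  have hpos := normSq_pos' (cop_ne hc) hzU
  unfold ht at hh
  rw [lt_div_iff₀ hpos, normSq_eq] at hh
  have him : z.im < R := lt_of_le_of_lt (le_trans (le_abs_self _) (Complex.abs_im_le_norm z)) hzR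
  have hre : |z.re| < R := lt_of_le_of_lt (Complex.abs_re_le_norm z) hzR
  have hre1 : |z.re| ≤ R := hre.le
  have h1 : ((v.1 : ℝ) - v.2 * z.re) ^ 2 < 2 * R := by nlinarith [sq_nonneg ((v.2 : ℝ) * z.im)]
  have h2 : ((v.2 : ℝ) * z.im) ^ 2 < 2 * R := by nlinarith [sq_nonneg ((v.1 : ℝ) - v.2 * z.re)]
  have h3 : |(v.1 : ℝ) - v.2 * z.re| < 2 * R + 1 := by
    rw [← sq_abs] at h1
    nlinarith [abs_nonneg ((v.1 : ℝ) - v.2 * z.re)]
  have h4 : |(v.2 : ℝ) * z.im| < 2 * R + 1 := by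
    rw [← sq_abs] at h2
    nlinarith [abs_nonneg ((v.2 : ℝ) * z.im)]
  rw [abs_mul, abs_of_pos (show (0 : ℝ) < z.im from hzU)] at h4
  have h5 : |(v.2 : ℝ)| < (2 * R + 1) / ε := by
    rw [lt_div_iff₀ hε]
    exact lt_of_le_of_lt (mul_le_mul_of_nonneg_left hz.le (abs_nonneg _)) h4
  have hq : 0 < (2 * R + 1) / ε := by positivity
  have h6 : |(v.1 : ℝ)| < (2 * R + 1) + (2 * R + 1) / ε * R := by
    have : |(v.1 : ℝ)| ≤ |(v.1 : ℝ) - v.2 * z.re| + |(v.2 : ℝ)| * |z.re| := by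
      rw [← abs_mul]
      calc |(v.1 : ℝ)| = |((v.1 : ℝ) - v.2 * z.re) + v.2 * z.re| := by ring_nf
        _ ≤ _ := abs_add_le _ _
    have h7 : |(v.2 : ℝ)| * |z.re| ≤ (2 * R + 1) / ε * R :=
      mul_le_mul h5.le hre1 (abs_nonneg _) hq.le
    linarith
  have h8 : |(v.1 : ℝ)| ≤ B := by
    have : (2 * R + 1) / ε * R ≤ (2 * R + 1) / ε * (R + 1) := by nlinarith
    linarith
  have h9 : |(v.2 : ℝ)| ≤ B := by
    have : (2 * R + 1) / ε ≤ (2 * R + 1) / ε * (R + 1) := by nlinarith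
    linarith
  have h10 : |v.1| ≤ (B : ℤ) := by exact_mod_cast h8
  have h11 : |v.2| ≤ (B : ℤ) := by exact_mod_cast h9
  rw [Finset.mem_product, Finset.mem_Icc, Finset.mem_Icc]
  exact ⟨abs_le.1 h10, abs_le.1 h11⟩

lemma box' (z0 : ℂ) (hz0 : z0 ∈ UH) : ∃ s : Finset (ℤ × ℤ), ∀ᶠ z in 𝓝 z0,
    ∀ v, v ∉ s → wt v z = 0 := by
  have h0 : (0 : ℝ) < z0.im := hz0
  obtain ⟨s, hs⟩ := box (z0.im / 2) (‖z0‖ + 1) (by linarith) (by positivity)
  refine ⟨s, ?_⟩
  have h1 : ∀ᶠ z : ℂ in 𝓝 z0, z0.im / 2 < z.im :=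
    (Complex.continuous_im.tendsto z0).eventually (lt_mem_nhds (by linarith))
  have h2 : ∀ᶠ z : ℂ in 𝓝 z0, ‖z‖ < ‖z0‖ + 1 :=
    (continuous_norm.tendsto z0).eventually (gt_mem_nhds (by linarith))
  filter_upwards [h1, h2] with z hz1 hz2 v hv
  exact hs z hz1 hz2 v hv

lemma box1 (z0 : ℂ) (hz0 : z0 ∈ UH) : ∃ s : Finset (ℤ × ℤ), ∀ v, v ∉ s → wt v z0 = 0 := by
  obtain ⟨s, hs⟩ := box' z0 hz0
  exact ⟨s, hs.self_of_nhds⟩

/-- numerator -/
def num (C : ℤ → ℤ → ℝ) (z : ℂ) : ℝ := ∑' v : ℤ × ℤ, C v.1 v.2 * wt v z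
/-- denominator -/
def den (z : ℂ) : ℝ := ∑' v : ℤ × ℤ, wt v z

lemma contDiffAt_ht {v : ℤ × ℤ} (hv : v ≠ 0) {z : ℂ} (hz : z ∈ UH) :
    ContDiffAt ℝ ∞ (ht v) z := by
  have h1 : ContDiffAt ℝ ∞ (fun z : ℂ => z.im) z := Complex.imCLM.contDiff.contDiffAt
  have h2 : ContDiffAt ℝ ∞ (fun z : ℂ => z.re) z := Complex.reCLM.contDiff.contDiffAt
  have h3 : ContDiffAt ℝ ∞ (fun z : ℂ => ((v.1 : ℝ) - v.2 * z.re) ^ 2 + (v.2 * z.im) ^ 2) z := by
    exact ((contDiffAt_const.sub (contDiffAt_const.mul h2)).pow 2).add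
      ((contDiffAt_const.mul h1).pow 2)
  have h4 : (((v.1 : ℝ) - v.2 * z.re) ^ 2 + (v.2 * z.im) ^ 2) ≠ 0 := by
    rw [← normSq_eq]
    exact (normSq_pos' hv hz).ne'
  have h5 := h1.div h3 h4
  have h6 : ht v = fun z : ℂ => z.im / (((v.1 : ℝ) - v.2 * z.re) ^ 2 + (v.2 * z.im) ^ 2) := by
    funext w
    unfold ht
    rw [normSq_eq]
  rw [h6]
  exact h5

lemma contDiffAt_wt (v : ℤ × ℤ) {z : ℂ} (hz : z ∈ UH) : ContDiffAt ℝ ∞ (wt v) z := by
  by_cases hc : IsCoprime v.1 v.2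
  · have h1 : wt v = fun z => expNegInvGlue (ht v z - 1 / 2) := by
      funext w
      unfold wt
      rw [if_pos hc]
    rw [h1]
    exact (expNegInvGlue.contDiff (n := (⊤ : ℕ∞))).contDiffAt.comp z
      ((contDiffAt_ht (cop_ne hc) hz).sub contDiffAt_const)
  · have h1 : wt v = fun _ => 0 := by
      funext w
      unfold wt
      rw [if_neg hc]
    rw [h1]
    exact contDiffAt_const

lemma contDiffAt_num (C : ℤ → ℤ → ℝ) {z : ℂ} (hz : z ∈ UH) : ContDiffAt ℝ ∞ (num C) z := by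
  obtain ⟨s, hs⟩ := box' z hz
  have h1 : ContDiffAt ℝ ∞ (fun z => ∑ v ∈ s, C v.1 v.2 * wt v z) z :=
    ContDiffAt.sum (fun v _ => contDiffAt_const.mul (contDiffAt_wt v hz))
  refine h1.congr_of_eventuallyEq ?_
  filter_upwards [hs] with w hw
  exact tsum_eq_sum (fun v hv => by rw [hw v hv, mul_zero])

lemma contDiffAt_den {z : ℂ} (hz : z ∈ UH) : ContDiffAt ℝ ∞ den z := by
  obtain ⟨s, hs⟩ := box' z hz
  have h1 : ContDiffAt ℝ ∞ (fun z => ∑ v ∈ s, wt v z) z :=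
    ContDiffAt.sum (fun v _ => contDiffAt_wt v hz)
  refine h1.congr_of_eventuallyEq ?_
  filter_upwards [hs] with w hw
  exact tsum_eq_sum (fun v hv => hw v hv)

lemma summable_wt (f : ℤ × ℤ → ℝ) {z : ℂ} (hz : z ∈ UH) : Summable (fun v => f v * wt v z) := by
  obtain ⟨s, hs⟩ := box1 z hz
  exact summable_of_ne_finset_zero (s := s) (fun v hv => by rw [hs v hv, mul_zero])

lemma den_pos {z : ℂ} (hz : z ∈ UH) : 0 < den z := by
  obtain ⟨g, hg⟩ := ModularGroup.exists_smul_mem_fd (⟨z, hz⟩ : UpperHalfPlane)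
  have h1 := ModularGroup.three_le_four_mul_im_sq_of_mem_fd hg
  set w : UpperHalfPlane := g • (⟨z, hz⟩ : UpperHalfPlane) with hw
  have hwpos := w.im_pos
  have h2 : w.im = ht (g 1 1, -(g 1 0)) z := by
    rw [hw, ModularGroup.im_smul_eq_div_normSq]
    unfold ht
    congr 1
    rw [ModularGroup.denom_apply]
    congr 1
    push_cast
    ring
  have h3 : 1 / 2 < w.im := by nlinarith
  have hc : IsCoprime (g 1 1) (-(g 1 0)) := by
    have := Matrix.SpecialLinearGroup.det_coe g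
    rw [Matrix.det_fin_two] at this
    exact ⟨g 0 0, g 0 1, by linarith⟩
  have h4 : 0 < wt (g 1 1, -(g 1 0)) z := by
    unfold wt
    rw [if_pos hc]
    apply expNegInvGlue.pos_of_pos
    rw [← h2]
    linarith
  have h5 : Summable (fun v => wt v z) := by
    simpa using summable_wt (fun _ => 1) hz
  exact h5.tsum_pos (fun v => wt_nonneg v z) _ h4

/-! ## transformation -/

/-- the action on pairs -/
def act (g : SL(2, ℤ)) : (ℤ × ℤ) ≃ (ℤ × ℤ) where
  toFun v := (g 0 0 * v.1 + g 0 1 * v.2, g 1 0 * v.1 + g 1 1 * v.2)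
  invFun v := (g 1 1 * v.1 - g 0 1 * v.2, -(g 1 0) * v.1 + g 0 0 * v.2)
  left_inv v := by
    have h := Matrix.SpecialLinearGroup.det_coe g
    rw [Matrix.det_fin_two] at h
    ext
    · simp only
      linear_combination v.1 * h
    · simp only
      linear_combination v.2 * h
  right_inv v := by
    have h := Matrix.SpecialLinearGroup.det_coe g
    rw [Matrix.det_fin_two] at h
    ext
    · simp only
      linear_combination v.1 * h
    · simp only
      linear_combination v.2 * h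

lemma jj_ne (g : SL(2, ℤ)) {z : ℂ} (hz : z ∈ UH) : jj g z ≠ 0 := by
  have h := Matrix.SpecialLinearGroup.det_coe g
  rw [Matrix.det_fin_two] at h
  have h1 : ((g 1 1, -(g 1 0)) : ℤ × ℤ) ≠ 0 := by
    intro h0
    rw [Prod.ext_iff] at h0
    simp only [Prod.fst_zero, Prod.snd_zero] at h0
    rw [h0.1, neg_eq_zero.1 h0.2] at h
    simp at h
  have h2 := sub_ne h1 hz
  unfold jj
  intro h3
  apply h2
  push_cast
  linear_combination h3

lemma im_mob (g : SL(2, ℤ)) (z : ℂ) : (mob g z).im = z.im / normSq (jj g z) := by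
  have h := Matrix.SpecialLinearGroup.det_coe g
  rw [Matrix.det_fin_two] at h
  have h' : ((g 0 0 : ℤ) : ℝ) * ((g 1 1 : ℤ) : ℝ) - ((g 0 1 : ℤ) : ℝ) * ((g 1 0 : ℤ) : ℝ) = 1 := by
    exact_mod_cast h
  unfold mob mo jj
  rw [Complex.div_im]
  simp only [add_im, mul_im, intCast_re, intCast_im, zero_mul, add_zero, add_re, mul_re, sub_zero]
  rw [← sub_div]
  congr 1
  linear_combination z.im * h'

lemma mob_mem (g : SL(2, ℤ)) {z : ℂ} (hz : z ∈ UH) : mob g z ∈ UH := by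
  show 0 < (mob g z).im
  rw [im_mob g z]
  exact div_pos hz (normSq_pos.2 (jj_ne g hz))

lemma ht_act (g : SL(2, ℤ)) (v : ℤ × ℤ) {z : ℂ} (hz : z ∈ UH) :
    ht (act g v) (mob g z) = ht v z := by
  have h := Matrix.SpecialLinearGroup.det_coe g
  rw [Matrix.det_fin_two] at h
  have h' : ((g 0 0 : ℤ) : ℂ) * ((g 1 1 : ℤ) : ℂ) - ((g 0 1 : ℤ) : ℂ) * ((g 1 0 : ℤ) : ℂ) = 1 := by
    exact_mod_cast h
  have hj := jj_ne g hz
  have h1 : (((act g v).1 : ℂ) - ((act g v).2 : ℂ) * mob g z)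
      = ((v.1 : ℂ) - (v.2 : ℂ) * z) / jj g z := by
    unfold mob mo act
    unfold jj at hj ⊢
    simp only [Equiv.coe_fn_mk]
    push_cast
    rw [eq_div_iff hj, sub_mul, mul_assoc, div_mul_cancel₀ _ hj]
    linear_combination ((v.1 : ℂ) - (v.2 : ℂ) * z) * h'
  unfold ht
  rw [h1, im_mob g z, normSq_div, div_div_div_cancel_right₀]
  exact (normSq_pos.2 hj).ne'

lemma act_coprime (g : SL(2, ℤ)) (v : ℤ × ℤ) (h : IsCoprime v.1 v.2) :
    IsCoprime (act g v).1 (act g v).2 := by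
  obtain ⟨a, b, hab⟩ := h
  have h := Matrix.SpecialLinearGroup.det_coe g
  rw [Matrix.det_fin_two] at h
  refine ⟨a * g 1 1 - b * g 1 0, -a * g 0 1 + b * g 0 0, ?_⟩
  unfold act
  simp only [Equiv.coe_fn_mk]
  linear_combination (a * v.1 + b * v.2) * h + hab

lemma act_coprime_iff (g : SL(2, ℤ)) (v : ℤ × ℤ) :
    IsCoprime (act g v).1 (act g v).2 ↔ IsCoprime v.1 v.2 := by
  refine ⟨fun h => ?_, act_coprime g v⟩
  obtain ⟨a, b, hab⟩ := h
  refine ⟨a * g 0 0 + b * g 1 0, a * g 0 1 + b * g 1 1, ?_⟩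
  unfold act at hab
  simp only [Equiv.coe_fn_mk] at hab
  linear_combination hab

lemma wt_act (g : SL(2, ℤ)) (v : ℤ × ℤ) {z : ℂ} (hz : z ∈ UH) :
    wt (act g v) (mob g z) = wt v z := by
  unfold wt
  rw [ht_act g v hz]
  simp only [act_coprime_iff g v]

lemma den_mob (g : SL(2, ℤ)) {z : ℂ} (hz : z ∈ UH) : den (mob g z) = den z := by
  unfold den
  rw [← (act g).tsum_eq]
  exact tsum_congr (fun v => wt_act g v hz)

lemma num_mob {N : ℕ} {C : ℤ → ℤ → ℝ} (hC : EqC N C) {g : SL(2, ℤ)}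
    (hg : g ∈ CongruenceSubgroup.Gamma0 N) {z : ℂ} (hz : z ∈ UH) :
    num C (mob g z) = num C z + (C (g 0 0) (g 1 0) - C 1 0) * den z := by
  have hdet := Matrix.SpecialLinearGroup.det_coe g
  rw [Matrix.det_fin_two] at hdet
  have hg0 : G0 N (g 0 0) (g 0 1) (g 1 0) (g 1 1) := by
    refine ⟨hdet, ?_⟩
    rw [CongruenceSubgroup.Gamma0_mem] at hg
    exact (ZMod.intCast_zmod_eq_zero_iff_dvd _ _).1 hg
  unfold num den
  rw [← (act g).tsum_eq, ← tsum_mul_left,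
    ← (summable_wt (fun v => C v.1 v.2) hz).tsum_add
      (summable_wt (fun _ => C (g 0 0) (g 1 0) - C 1 0) hz)]
  refine tsum_congr (fun v => ?_)
  rw [wt_act g v hz, ← add_mul]
  by_cases hv : v = 0
  · have : wt v z = 0 := by
      by_contra h
      exact cop_ne (wt_ne h).1 hv
    rw [this, mul_zero, mul_zero]
  · congr 1
    have hv' : v.1 ≠ 0 ∨ v.2 ≠ 0 := by
      by_contra h
      push Not at h
      exact hv (Prod.ext h.1 h.2)
    exact hC (g 0 0) (g 0 1) (g 1 0) (g 1 1) hg0 v.1 v.2 hv'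

/-- the admissible function -/
def uu (C : ℤ → ℤ → ℝ) (z : ℂ) : ℝ := num C z / den z

lemma contDiffAt_uu (C : ℤ → ℤ → ℝ) {z : ℂ} (hz : z ∈ UH) : ContDiffAt ℝ ∞ (uu C) z :=
  (contDiffAt_num C hz).div (contDiffAt_den hz) (den_pos hz).ne'

lemma uu_mob {N : ℕ} {C : ℤ → ℤ → ℝ} (hC : EqC N C) {g : SL(2, ℤ)}
    (hg : g ∈ CongruenceSubgroup.Gamma0 N) {z : ℂ} (hz : z ∈ UH) :
    uu C (mob g z) = uu C z + (C (g 0 0) (g 1 0) - C 1 0) := by
  unfold uu
  rw [num_mob hC hg hz, den_mob g hz, add_div, mul_div_cancel_right₀ _ (den_pos hz).ne']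

/-! ## horoballs -/

lemma ht_mul {v w : ℤ × ℤ} (hv : v ≠ 0) (hw : w ≠ 0) {z : ℂ} (hz : z ∈ UH)
    (hD : v.1 * w.2 - v.2 * w.1 ≠ 0) : ht v z * ht w z ≤ 1 := by
  have h1 := normSq_pos' hv hz
  have h2 := normSq_pos' hw hz
  unfold ht
  rw [div_mul_div_comm, div_le_one (mul_pos h1 h2), normSq_eq, normSq_eq]
  have h3 : (1 : ℝ) ≤ ((v.1 : ℝ) * w.2 - v.2 * w.1) ^ 2 := by
    have h4 : (0 : ℤ) < (v.1 * w.2 - v.2 * w.1) ^ 2 := by positivity
    have h5 : (1 : ℤ) ≤ (v.1 * w.2 - v.2 * w.1) ^ 2 := h4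
    exact_mod_cast h5
  have h5 : z.im * z.im ≤ ((v.1 : ℝ) * w.2 - v.2 * w.1) ^ 2 * (z.im * z.im) := by
    nlinarith [mul_self_nonneg z.im]
  refine h5.trans ?_
  nlinarith [sq_nonneg (((v.1 : ℝ) - v.2 * z.re) * (w.1 - w.2 * z.re) + (v.2 * z.im) * (w.2 * z.im))]

lemma prop_of_det {v w : ℤ × ℤ} (hv : IsCoprime v.1 v.2) (hw : IsCoprime w.1 w.2)
    (hD : v.1 * w.2 - v.2 * w.1 = 0) : ∃ k : ℤ, (k = 1 ∨ k = -1) ∧ w.1 = k * v.1 ∧ w.2 = k * v.2 := by
  obtain ⟨a, b, hab⟩ := hv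
  obtain ⟨c, d, hcd⟩ := hw
  have h1 : w.1 = (a * w.1 + b * w.2) * v.1 := by
    linear_combination (-w.1) * hab - b * hD
  have h2 : w.2 = (a * w.1 + b * w.2) * v.2 := by
    linear_combination (-w.2) * hab + a * hD
  refine ⟨a * w.1 + b * w.2, ?_, h1, h2⟩
  apply Int.isUnit_iff.1
  apply isUnit_of_dvd_one
  refine ⟨c * v.1 + d * v.2, ?_⟩
  linear_combination (-1 : ℤ) * hcd + c * h1 + d * h2

lemma uu_const {C : ℤ → ℤ → ℝ} (hC : Hom0 C) {v : ℤ × ℤ} (hv : IsCoprime v.1 v.2) {z : ℂ}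
    (hz : z ∈ UH) (h : 2 < ht v z) : uu C z = C v.1 v.2 := by
  unfold uu
  rw [div_eq_iff (den_pos hz).ne']
  unfold num den
  rw [← tsum_mul_left]
  refine tsum_congr (fun w => ?_)
  by_cases hw : wt w z = 0
  · rw [hw, mul_zero, mul_zero]
  · congr 1
    obtain ⟨hwc, hwh⟩ := wt_ne hw
    have hD : v.1 * w.2 - v.2 * w.1 = 0 := by
      by_contra hD
      have := ht_mul (cop_ne hv) (cop_ne hwc) hz hD
      nlinarith
    obtain ⟨k, hk, h1, h2⟩ := prop_of_det hv hwc hD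
    rw [h1, h2]
    exact hC k v.1 v.2 (by rcases hk with rfl | rfl <;> norm_num)

lemma continuousAt_ht {v : ℤ × ℤ} (hv : v ≠ 0) {z : ℂ} (hz : z ∈ UH) : ContinuousAt (ht v) z :=
  (contDiffAt_ht hv hz).continuousAt

lemma DD_zero {C : ℤ → ℤ → ℝ} (hC : Hom0 C) {v : ℤ × ℤ} (hv : IsCoprime v.1 v.2) {z : ℂ}
    (hz : z ∈ UH) (h : 2 < ht v z) : DD (uu C) (uu C) z = 0 := by
  have h1 : uu C =ᶠ[𝓝 z] fun _ => C v.1 v.2 := by
    have h2 : ∀ᶠ w in 𝓝 z, 2 < ht v w := (continuousAt_ht (cop_ne hv) hz).eventually (lt_mem_nhds h)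
    filter_upwards [h2, isOpen_UH.mem_nhds hz] with w hw hwU
    exact uu_const hC hv hwU hw
  have h2 : fderiv ℝ (uu C) z = 0 := by
    rw [h1.fderiv_eq]
    simp
  unfold DD ux uy
  rw [h2]
  simp

/-! ## compact support of the energy density -/

/-- truncated fundamental domain -/
def K0 : Set ℂ := {w | |w.re| ≤ 1 / 2 ∧ 1 ≤ ‖w‖ ∧ 0 ≤ w.im ∧ w.im ≤ 2}

lemma K0_subset : K0 ⊆ UH := by
  rintro w ⟨h1, h2, h3, h4⟩
  show 0 < w.im
  rcases h3.eq_or_lt with h | h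
  · exfalso
    have h5 : ‖w‖ ^ 2 = w.re ^ 2 + w.im ^ 2 := by
      rw [← Complex.normSq_eq_norm_sq, normSq_apply]
      ring
    rw [← h] at h5
    have h6 : w.re ^ 2 ≤ (1 / 2) ^ 2 := by
      rw [← sq_abs]
      exact pow_le_pow_left₀ (abs_nonneg _) h1 2
    nlinarith
  · exact h

lemma isCompact_K0 : IsCompact K0 := by
  apply Metric.isCompact_of_isClosed_isBounded
  · have c1 : IsClosed {w : ℂ | |w.re| ≤ 1 / 2} :=
      isClosed_le (continuous_abs.comp Complex.continuous_re) continuous_const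
    have c2 : IsClosed {w : ℂ | 1 ≤ ‖w‖} := isClosed_le continuous_const continuous_norm
    have c3 : IsClosed {w : ℂ | 0 ≤ w.im} := isClosed_le continuous_const Complex.continuous_im
    have c4 : IsClosed {w : ℂ | w.im ≤ 2} := isClosed_le Complex.continuous_im continuous_const
    exact c1.inter (c2.inter (c3.inter c4))
  · refine (Metric.isBounded_ball (x := (0 : ℂ)) (r := 4)).subset ?_
    rintro w ⟨h1, h2, h3, h4⟩
    rw [mem_ball_zero_iff]
    have h5 := Complex.norm_le_abs_re_add_abs_im w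
    rw [abs_of_nonneg h3] at h5
    linarith

lemma continuousOn_mob (g : SL(2, ℤ)) : ContinuousOn (mob g) UH := by
  unfold mob mo
  refine ContinuousOn.div (by fun_prop) (by fun_prop) (fun z hz => jj_ne g hz)

/-- the compact set -/
def KK (G : Finset SL(2, ℤ)) : Set ℂ := ⋃ g ∈ G, mob g '' K0

lemma isCompact_KK (G : Finset SL(2, ℤ)) : IsCompact (KK G) :=
  G.isCompact_biUnion (fun g _ => isCompact_K0.image_of_continuousOn
    ((continuousOn_mob g).mono K0_subset))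

lemma KK_subset (G : Finset SL(2, ℤ)) : KK G ⊆ UH := by
  intro z hz
  simp only [KK, Set.mem_iUnion, Set.mem_image] at hz
  obtain ⟨g, _, w, hw, rfl⟩ := hz
  exact mob_mem g (K0_subset hw)

lemma contDiffOn_uu (C : ℤ → ℤ → ℝ) : ContDiffOn ℝ ∞ (uu C) UH :=
  fun _ hz => (contDiffAt_uu C hz).contDiffWithinAt

lemma continuousOn_DD {u : ℂ → ℝ} (hu : ContDiffOn ℝ ∞ u UH) : ContinuousOn (DD u u) UH := by
  have h1 : ContinuousOn (fderiv ℝ u) UH := hu.continuousOn_fderiv_of_isOpen isOpen_UH (by simp)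
  have h2 : ContinuousOn (ux u) UH := h1.clm_apply continuousOn_const
  have h3 : ContinuousOn (uy u) UH := h1.clm_apply continuousOn_const
  exact (h2.mul h2).add (h3.mul h3)

theorem st_UZ : ST_UZ := by
  intro N W C hN hW hH hE
  refine ⟨uu C, contDiffOn_uu C, fun g hg z hz => uu_mob hE hg hz, ?_⟩
  obtain ⟨G, hG⟩ := hW.supp
  have hK := isCompact_KK G
  have hcont := continuousOn_DD (contDiffOn_uu C)
  have hcK : ContinuousOn (DD (uu C) (uu C)) (KK G) := hcont.mono (KK_subset G)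
  obtain ⟨M, hM⟩ := hK.exists_bound_of_continuousOn hcK
  have hint : IntegrableOn (fun z => W z * DD (uu C) (uu C) z) (KK G) := by
    have hms : AEStronglyMeasurable (fun z => W z * DD (uu C) (uu C) z)
        (volume.restrict (KK G)) :=
      hW.meas.aestronglyMeasurable.mul (hcK.aestronglyMeasurable hK.measurableSet)
    have : IsFiniteMeasure (volume.restrict (KK G)) := ⟨by
      rw [Measure.restrict_apply_univ]
      exact hK.measure_lt_top⟩
    refine Integrable.of_bound hms M ?_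
    refine (ae_restrict_iff' hK.measurableSet).2 (Eventually.of_forall fun z hz => ?_)
    rw [norm_mul]
    have h1 : ‖W z‖ ≤ 1 := by
      rw [Real.norm_eq_abs, abs_of_nonneg (hW.nonneg z)]
      exact hW.le_one z
    calc ‖W z‖ * ‖DD (uu C) (uu C) z‖ ≤ 1 * ‖DD (uu C) (uu C) z‖ :=
          mul_le_mul_of_nonneg_right h1 (norm_nonneg _)
      _ ≤ M := by rw [one_mul]; exact hM z hz
  refine hint.of_forall_sdiff_eq_zero isOpen_UH.measurableSet ?_
  rintro z ⟨hzU, hzK⟩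
  by_cases hWz : W z = 0
  · rw [hWz, zero_mul]
  · obtain ⟨g, hg, w, hwU, hre, hn, rfl⟩ := hG z hWz
    have him : 2 < w.im := by
      by_contra hle
      apply hzK
      simp only [KK, Set.mem_iUnion, Set.mem_image]
      exact ⟨g, hg, w, ⟨hre, hn, le_of_lt hwU, not_lt.1 hle⟩, rfl⟩
    have h1 : ht (act g (1, 0)) (mob g w) = w.im := by
      rw [ht_act g (1, 0) hwU]
      unfold ht
      simp
    have h2 : IsCoprime (act g (1, 0)).1 (act g (1, 0)).2 :=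
      act_coprime g (1, 0) isCoprime_one_left
    rw [DD_zero hH h2 hzU (by rw [h1]; exact him), mul_zero]

end

end Pool.Agent.Helper53.MP
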