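import Pool.Agent.Helper9.MP.Lat
import Pool.Agent.Helper92.MP.TEST

/-!
# MP_bde085_nt, HAB2: Stokes on the quotient
-/

set_option autoImplicit false

namespace Pool.Agent.Helper96.MP

open Complex MeasureTheory Filter Topology
open scoped MatrixGroups

/-! ## Stokes in the upper half plane -/

theorem hab2_fd0 {a : ℂ → ℝ} {z : ℂ} (hz : z ∉ tsupport a) : fderiv ℝ a z = 0 := by
  have h1 : z ∉ tsupport (fderiv ℝ a) := fun h => hz (tsupport_fderiv_subset ℝ h)
  exact image_eq_zero_of_notMem_tsupport h1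

theorem hab2_JJ0 {a v : ℂ → ℝ} {z : ℂ} (hz : z ∉ tsupport a) : JJ a v z = 0 := by
  unfold JJ ux uy
  rw [hab2_fd0 hz]
  simp

/-- products of a function continuous on `UH` and a function supported inside -/
theorem hab2_int {f g a : ℂ → ℝ} (ha : HasCompactSupport a) (haU : tsupport a ⊆ UH)
    (hf : ContinuousOn f UH) (hg : Continuous g)
    (h0 : ∀ z, z ∉ tsupport a → g z = 0) : Integrable (fun z => f z * g z) := by
  have hsub : tsupport (fun z => f z * g z) ⊆ tsupport a := by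
    refine closure_minimal ?_ (isClosed_tsupport a)
    intro z hz
    by_contra hcon
    exact hz (by simp [h0 z hcon])
  have hcont : Continuous (fun z => f z * g z) := by
    refine continuous_of_tsupport fun z hz => ?_
    have hzB : z ∈ UH := haU (hsub hz)
    exact (hf.continuousAt (test_open.mem_nhds hzB)).mul hg.continuousAt
  refine hcont.integrable_of_hasCompactSupport ?_
  exact IsCompact.of_isClosed_subset ha (isClosed_tsupport _) hsub

theorem hab2_part {f a : ℂ → ℝ} (hs : ContDiff ℝ (⊤ : ℕ∞) a) (ha : HasCompactSupport a)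
    (haU : tsupport a ⊆ UH) (hf : ContDiffOn ℝ 1 f UH) (v : ℂ) :
    ∫ z, f z * fderiv ℝ a z v = - ∫ z, fderiv ℝ f z v * a z := by
  have hadiff : Differentiable ℝ a := hs.differentiable (by simp)
  have hfd : ContinuousOn (fun z => fderiv ℝ f z v) UH := by
    have h1 : ContinuousOn (fderiv ℝ f) UH := hf.continuousOn_fderiv_of_isOpen test_open le_rfl
    exact h1.clm_apply continuousOn_const
  have hda : Continuous (fun z => fderiv ℝ a z v) := by
    have h1 : Continuous (fderiv ℝ a) := hs.continuous_fderiv (by simp)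
    exact h1.clm_apply continuous_const
  refine integral_mul_fderiv_eq_neg_fderiv_mul_of_integrable ?_ ?_ ?_ ?_ ?_
  · exact hab2_int ha haU hfd hs.continuous fun z hz => image_eq_zero_of_notMem_tsupport hz
  · exact hab2_int ha haU hf.continuousOn hda fun z hz => by rw [hab2_fd0 hz]; rfl
  · exact hab2_int ha haU hf.continuousOn hs.continuous fun z hz => image_eq_zero_of_notMem_tsupport hz
  · intro x hx
    exact (hf.differentiableOn (by simp)).differentiableAt (test_open.mem_nhds (haU hx))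
  · intro x _
    exact hadiff x

theorem hab2_stokes {v a : ℂ → ℝ} (hv : ContDiffOn ℝ (⊤ : ℕ∞) v UH) (hs : ContDiff ℝ (⊤ : ℕ∞) a)
    (ha : HasCompactSupport a) (haU : tsupport a ⊆ UH) : ∫ z, JJ a v z = 0 := by
  have hu1 : ContDiffOn ℝ 1 (fderiv ℝ v) UH := by
    have h2 : ContDiffOn ℝ 2 v UH := hv.of_le (show ((2 : ℕ∞) : WithTop ℕ∞) ≤ ((⊤ : ℕ∞) : WithTop ℕ∞) from WithTop.coe_le_coe.2 le_top)
    refine h2.fderiv_of_isOpen test_open ?_
    norm_num
  have hx : ContDiffOn ℝ 1 (fun z => ux v z) UH := by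
    exact hu1.clm_apply contDiffOn_const
  have hy : ContDiffOn ℝ 1 (fun z => uy v z) UH := by
    exact hu1.clm_apply contDiffOn_const
  have hdax : Continuous (fun z => ux a z) := by
    have h1 : Continuous (fderiv ℝ a) := hs.continuous_fderiv (by simp)
    exact h1.clm_apply continuous_const
  have hday : Continuous (fun z => uy a z) := by
    have h1 : Continuous (fderiv ℝ a) := hs.continuous_fderiv (by simp)
    exact h1.clm_apply continuous_const
  have e1 := hab2_part hs ha haU hx Complex.I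
  have e2 := hab2_part hs ha haU hy 1
  have h0 : (fun z => JJ a v z) = fun z => uy v z * ux a z - ux v z * uy a z := by
    funext z
    unfold JJ
    ring
  rw [h0, integral_sub (hab2_int ha haU hy.continuousOn hdax fun z hz => by unfold ux; rw [hab2_fd0 hz]; rfl)
    (hab2_int ha haU hx.continuousOn hday fun z hz => by unfold uy; rw [hab2_fd0 hz]; rfl)]
  have e1' : ∫ z, ux v z * uy a z = - ∫ z, fderiv ℝ (fun z => ux v z) z Complex.I * a z := e1
  have e2' : ∫ z, uy v z * ux a z = - ∫ z, fderiv ℝ (fun z => uy v z) z 1 * a z := e2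
  rw [e1', e2']
  have e3 : (fun z => fderiv ℝ (fun z => ux v z) z Complex.I * a z) =
      fun z => fderiv ℝ (fun z => uy v z) z 1 * a z := by
    funext z
    by_cases hz : z ∈ tsupport a
    · have hzB : UH ∈ 𝓝 z := test_open.mem_nhds (haU hz)
      have hd : DifferentiableAt ℝ (fderiv ℝ v) z :=
        (hu1.differentiableOn (by simp)).differentiableAt hzB
      have s1 : fderiv ℝ (fun z => ux v z) z Complex.I = fderiv ℝ (fderiv ℝ v) z Complex.I 1 := by
        have : HasFDerivAt (fun z => ux v z)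
            ((ContinuousLinearMap.apply ℝ ℝ (1 : ℂ)).comp (fderiv ℝ (fderiv ℝ v) z)) z :=
          (ContinuousLinearMap.apply ℝ ℝ (1 : ℂ)).hasFDerivAt.comp z hd.hasFDerivAt
        rw [this.fderiv]
        rfl
      have s2 : fderiv ℝ (fun z => uy v z) z 1 = fderiv ℝ (fderiv ℝ v) z 1 Complex.I := by
        have : HasFDerivAt (fun z => uy v z)
            ((ContinuousLinearMap.apply ℝ ℝ (Complex.I : ℂ)).comp (fderiv ℝ (fderiv ℝ v) z)) z :=
          (ContinuousLinearMap.apply ℝ ℝ (Complex.I : ℂ)).hasFDerivAt.comp z hd.hasFDerivAt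
        rw [this.fderiv]
        rfl
      have s3 : fderiv ℝ (fderiv ℝ v) z Complex.I 1 = fderiv ℝ (fderiv ℝ v) z 1 Complex.I := by
        have hc : ContDiffAt ℝ 2 v z := (hv.contDiffAt hzB).of_le (show ((2 : ℕ∞) : WithTop ℕ∞) ≤ ((⊤ : ℕ∞) : WithTop ℕ∞) from WithTop.coe_le_coe.2 le_top)
        have := hc.isSymmSndFDerivAt (by simp)
        exact this Complex.I 1
      rw [s1, s2, s3]
    · rw [image_eq_zero_of_notMem_tsupport hz, mul_zero, mul_zero]
  rw [e3]
  simp

/-! ## Periodization -/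

theorem hab2_comp (g : SL(2, ℤ)) {z : ℂ} (hz : z ∈ UH) (f k : ℂ → ℝ)
    (hf : DifferentiableAt ℝ f (mob g z)) (hk : DifferentiableAt ℝ k (mob g z)) :
    JJ (fun w => f (mob g w)) (fun w => k (mob g w)) z
      = JJ f k (mob g z) * (‖jj g z‖ ^ 4)⁻¹ := by
  have hj := test_jj_ne g hz
  set lam : ℂ := (jj g z ^ 2)⁻¹ with hlam
  have h1 : lam.re * lam.re + lam.im * lam.im = (‖jj g z‖ ^ 4)⁻¹ := by
    rw [← Complex.normSq_apply, Complex.normSq_eq_norm_sq, hlam, norm_inv, norm_pow, inv_pow]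
    congr 1
    ring
  have h2 : (lam * I).re = - lam.im := by simp
  have h3 : (lam * I).im = lam.re := by simp
  unfold JJ ux uy
  rw [test_comp g hz f hf, test_comp g hz k hk, test_comp g hz f hf, test_comp g hz k hk, mul_one,
    test_lin (fderiv ℝ f (mob g z)) lam, test_lin (fderiv ℝ f (mob g z)) (lam * I),
    test_lin (fderiv ℝ k (mob g z)) lam, test_lin (fderiv ℝ k (mob g z)) (lam * I), h2, h3, ← h1]
  ring

theorem hab2_key (N : ℕ) {a u : ℂ → ℝ} (ρ : SL(2, ℤ) → ℝ) (hu : ContDiffOn ℝ (⊤ : ℕ∞) u UH)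
    (he : ∀ g ∈ CongruenceSubgroup.Gamma0 N, ∀ z ∈ UH, u (mob g z) = u z + ρ g)
    (hs : ContDiff ℝ (⊤ : ℕ∞) a) (ha : HasCompactSupport a) (haU : tsupport a ⊆ UH) {z : ℂ}
    (hz : z ∈ UH) :
    ∑' g : CongruenceSubgroup.Gamma0 N, JJ a u (mob g.1 z) * (‖jj g.1 z‖ ^ 4)⁻¹
      = JJ (test_per N a) u z := by
  obtain ⟨O, hO, hzO, hOU, F, hF⟩ := test_local N ha haU hz
  have had : Differentiable ℝ a := hs.differentiable (by simp)
  have h1 : test_per N a =ᶠ[𝓝 z] fun z => ∑ g ∈ F, a (mob g.1 z) := by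
    filter_upwards [hO.mem_nhds hzO] with w hw
    exact test_per_local N hF hw
  have hda : ∀ g : CongruenceSubgroup.Gamma0 N, DifferentiableAt ℝ (fun w => a (mob g.1 w)) z := by
    intro g
    exact (had _).comp z ((test_contDiffAt g.1 hz (⊤ : ℕ∞)).differentiableAt (by simp))
  have h2 : fderiv ℝ (test_per N a) z = ∑ g ∈ F, fderiv ℝ (fun w => a (mob g.1 w)) z := by
    rw [h1.fderiv_eq]
    exact fderiv_fun_sum (fun g _ => hda g)
  have h3 : JJ (test_per N a) u z = ∑ g ∈ F, JJ (fun w => a (mob g.1 w)) u z := by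
    unfold JJ ux uy
    rw [h2, _root_.sum_apply, _root_.sum_apply, Finset.sum_mul,
      Finset.sum_mul, ← Finset.sum_sub_distrib]
  rw [h3, tsum_eq_sum (s := F)]
  · apply Finset.sum_congr rfl
    intro g _
    have h4 : JJ (fun w => a (mob g.1 w)) u z
        = JJ (fun w => a (mob g.1 w)) (fun w => u (mob g.1 w)) z := by
      have h5 : fderiv ℝ (fun w => u (mob g.1 w)) z = fderiv ℝ u z := by
        have h6 : (fun w => u (mob g.1 w)) =ᶠ[𝓝 z] fun w => u w + ρ g.1 := by
          filter_upwards [test_open.mem_nhds hz] with w hw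
          exact he g.1 g.2 w hw
        rw [h6.fderiv_eq, fderiv_add_const]
      unfold JJ ux uy
      rw [h5]
    rw [h4, hab2_comp g.1 hz a u (had _) (test_diffAt hu (test_mem g.1 hz))]
  · intro g hg
    rw [hab2_JJ0 (hF z hzO g hg), zero_mul]

theorem hab2_contJJ {a u : ℂ → ℝ} (hu : ContDiffOn ℝ (⊤ : ℕ∞) u UH)
    (hs : ContDiff ℝ (⊤ : ℕ∞) a) (haU : tsupport a ⊆ UH) : Continuous (JJ a u) := by
  have h1 : ContinuousOn (fderiv ℝ u) UH := hu.continuousOn_fderiv_of_isOpen test_open (by simp)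
  have h2 : Continuous (fderiv ℝ a) := hs.continuous_fderiv (by simp)
  have h3 : ContinuousOn (JJ a u) UH := by
    unfold JJ ux uy
    apply ContinuousOn.sub
    · exact (h2.continuousOn.clm_apply continuousOn_const).mul (h1.clm_apply continuousOn_const)
    · exact (h2.continuousOn.clm_apply continuousOn_const).mul (h1.clm_apply continuousOn_const)
  rw [continuous_iff_continuousAt]
  intro z
  by_cases hz : z ∈ tsupport a
  · exact h3.continuousAt (test_open.mem_nhds (haU hz))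
  · have h4 : JJ a u =ᶠ[𝓝 z] fun _ => (0 : ℝ) := by
      filter_upwards [(isClosed_tsupport a).isOpen_compl.mem_nhds hz] with w hw
      exact hab2_JJ0 hw
    exact (continuousAt_const).congr h4.symm

theorem hab2_unf (h1 : ST_UNF) (N : ℕ) (W : ℂ → ℝ) {a u : ℂ → ℝ} (ρ : SL(2, ℤ) → ℝ) (hN : 1 ≤ N)
    (hW : WOK N W) (hu : ContDiffOn ℝ (⊤ : ℕ∞) u UH)
    (he : ∀ g ∈ CongruenceSubgroup.Gamma0 N, ∀ z ∈ UH, u (mob g z) = u z + ρ g)
    (hs : ContDiff ℝ (⊤ : ℕ∞) a) (ha : HasCompactSupport a) (haU : tsupport a ⊆ UH) :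
    IntegrableOn (fun z => W z * JJ (test_per N a) u z) UH ∧
      ∫ z in UH, W z * JJ (test_per N a) u z = 0 := by
  have hsupp : Function.support (JJ a u) ⊆ tsupport a := by
    intro z hz
    by_contra h
    exact hz (hab2_JJ0 h)
  have hc : HasCompactSupport (JJ a u) := ha.mono' hsupp
  have hU : tsupport (JJ a u) ⊆ UH := (closure_minimal hsupp (isClosed_tsupport a)).trans haU
  obtain ⟨h2, h3⟩ := h1 N W (JJ a u) hN hW (hab2_contJJ hu hs haU) hc hU
  have h4 : Set.EqOn (fun z => W z * ∑' g : CongruenceSubgroup.Gamma0 N,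
      JJ a u (mob g.1 z) * (‖jj g.1 z‖ ^ 4)⁻¹) (fun z => W z * JJ (test_per N a) u z) UH := by
    intro z hz
    show W z * _ = W z * _
    rw [hab2_key N ρ hu he hs ha haU hz]
  constructor
  · exact h2.congr_fun h4 test_open.measurableSet
  · rw [← setIntegral_congr_fun test_open.measurableSet h4, h3]
    rw [setIntegral_eq_integral_of_forall_compl_eq_zero fun z hz => hab2_JJ0 fun h => hz (haU h)]
    exact hab2_stokes hu hs ha haU

/-! ## The cut-off -/

/-- product of a test function and a function smooth on `UH` -/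
theorem hab2_smul {β s : ℂ → ℝ} (hs : ContDiff ℝ (⊤ : ℕ∞) β) (hβ : HasCompactSupport β)
    (hβU : tsupport β ⊆ UH) (h : ContDiffOn ℝ (⊤ : ℕ∞) s UH) :
    ContDiff ℝ (⊤ : ℕ∞) (fun z => β z * s z) ∧ HasCompactSupport (fun z => β z * s z) ∧
      tsupport (fun z => β z * s z) ⊆ UH := by
  have hsub : tsupport (fun z => β z * s z) ⊆ tsupport β := by
    refine closure_minimal ?_ (isClosed_tsupport β)
    intro z hz
    by_contra hcon
    exact hz (by simp [image_eq_zero_of_notMem_tsupport hcon])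
  refine ⟨?_, IsCompact.of_isClosed_subset hβ (isClosed_tsupport _) hsub, hsub.trans hβU⟩
  rw [contDiff_iff_contDiffAt]
  intro z
  by_cases hz : z ∈ tsupport β
  · exact hs.contDiffAt.mul (h.contDiffAt (test_open.mem_nhds (hβU hz)))
  · have h4 : (fun z => β z * s z) =ᶠ[𝓝 z] fun _ => (0 : ℝ) := by
      filter_upwards [(isClosed_tsupport β).isOpen_compl.mem_nhds hz] with w hw
      rw [image_eq_zero_of_notMem_tsupport hw, zero_mul]
    exact contDiffAt_const.congr_of_eventuallyEq h4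

/-- a smooth function equal to `1/t` for `t ≥ 1/2` -/
noncomputable def hab2_h (t : ℝ) : ℝ := Real.smoothTransition (4 * t - 1) / t

theorem hab2_h_smooth : ContDiff ℝ (⊤ : ℕ∞) hab2_h := by
  rw [contDiff_iff_contDiffAt]
  intro t
  by_cases ht : t = 0
  · have h4 : hab2_h =ᶠ[𝓝 t] fun _ => (0 : ℝ) := by
      rw [ht]
      filter_upwards [Iio_mem_nhds (show (0 : ℝ) < 1 / 4 by norm_num)] with w hw
      unfold hab2_h
      rw [Real.smoothTransition.zero_of_nonpos, zero_div]
      have : w < 1 / 4 := hw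
      linarith
    exact contDiffAt_const.congr_of_eventuallyEq h4
  · unfold hab2_h
    apply ContDiffAt.div _ contDiffAt_id ht
    exact Real.smoothTransition.contDiff.contDiffAt.comp t
      ((contDiffAt_const.mul contDiffAt_id).sub contDiffAt_const)

theorem hab2_h_eq {t : ℝ} (ht : 1 ≤ t) : hab2_h t * t = 1 := by
  unfold hab2_h
  rw [Real.smoothTransition.one_of_one_le (by linarith)]
  have : t ≠ 0 := by linarith
  field_simp

theorem hab2_per_mul (N : ℕ) {β s : ℂ → ℝ}
    (he : ∀ g ∈ CongruenceSubgroup.Gamma0 N, ∀ z ∈ UH, s (mob g z) = s z) {z : ℂ} (hz : z ∈ UH) :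
    test_per N (fun z => β z * s z) z = test_per N β z * s z := by
  unfold test_per
  rw [← tsum_mul_right]
  apply tsum_congr
  intro g
  show β (mob g.1 z) * s (mob g.1 z) = _
  rw [he g.1 g.2 z hz]

theorem hab2_single {ι : Type} (F : Finset ι) (f : ι → ℝ) (h : ∀ i, 0 ≤ f i) (i : ι) (hi : i ∈ F) :
    f i ≤ ∑ j ∈ F, f j := Finset.single_le_sum (fun j _ => h j) hi

theorem hab2_beta {K : Set ℂ} (hK : IsCompact K) (hKU : K ⊆ UH) :
    ∃ β : ℂ → ℝ, ContDiff ℝ (⊤ : ℕ∞) β ∧ HasCompactSupport β ∧ tsupport β ⊆ UH ∧ (∀ z, 0 ≤ β z) ∧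
      ∀ z ∈ K, β z = 2 := by
  obtain ⟨L, hL, hKL, hLU⟩ := exists_compact_between hK test_open hKU
  obtain ⟨f, hf1, hf2, hf3⟩ := exists_contMDiffMap_one_nhds_of_subset_interior (n := (⊤ : ℕ∞))
    (modelWithCornersSelf ℝ ℂ) hK.isClosed hKL
  have hfs : ContDiff ℝ (⊤ : ℕ∞) (fun z => f z) := f.contMDiff.contDiff
  have hβsub : tsupport (fun z => 2 * f z) ⊆ L := by
    refine closure_minimal ?_ hL.isClosed
    intro z hz
    by_contra hcon
    exact hz (by simp [hf2 z hcon])
  refine ⟨fun z => 2 * f z, contDiff_const.mul hfs,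
    IsCompact.of_isClosed_subset hL (isClosed_tsupport _) hβsub, hβsub.trans hLU,
    fun z => mul_nonneg (by norm_num) (hf3 z).1, fun z hz => ?_⟩
  have : f z = 1 := hf1.self_of_nhdsSet z hz
  simp [this]

theorem hab2_cut (N : ℕ) {K : Set ℂ} (hK : IsCompact K) (hKU : K ⊆ UH) :
    ∃ a0 : ℂ → ℝ, ContDiff ℝ (⊤ : ℕ∞) a0 ∧ HasCompactSupport a0 ∧ tsupport a0 ⊆ UH ∧
      ∃ O : Set ℂ, IsOpen O ∧ O ⊆ UH ∧
        (∀ z ∈ UH, ∀ g ∈ CongruenceSubgroup.Gamma0 N, mob g z ∈ K → z ∈ O) ∧
        ∀ z ∈ O, test_per N a0 z = 1 := by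
  obtain ⟨β, hβs, hβc, hβU, hβ0, hβK⟩ := hab2_beta hK hKU
  have hsm := test_smooth N hβs hβc hβU
  have hinv : ∀ g ∈ CongruenceSubgroup.Gamma0 N, ∀ z ∈ UH, test_per N β (mob g z) = test_per N β z :=
    fun g hg z hz => test_eqv N β g hg hz
  have hsm2 : ContDiffOn ℝ (⊤ : ℕ∞) (fun z => hab2_h (test_per N β z)) UH :=
    hab2_h_smooth.comp_contDiffOn hsm
  obtain ⟨b1, b2, b3⟩ := hab2_smul hβs hβc hβU hsm2
  refine ⟨_, b1, b2, b3, {z | z ∈ UH ∧ 1 < test_per N β z}, ?_, fun z hz => hz.1, ?_, ?_⟩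
  · have := hsm.continuousOn.isOpen_inter_preimage test_open (isOpen_Ioi (a := (1 : ℝ)))
    exact this
  · intro z hz g hg hgK
    refine ⟨hz, ?_⟩
    obtain ⟨O, hO, hzO, hOU, F, hF⟩ := test_local N hβc hβU hz
    rw [test_per_local N hF hzO]
    have h2 : β (mob g z) = 2 := hβK _ hgK
    have hgF : (⟨g, hg⟩ : CongruenceSubgroup.Gamma0 N) ∈ F := by
      by_contra hc
      have := test_a_zero (hF z hzO ⟨g, hg⟩ hc)
      rw [h2] at this
      norm_num at this
    have h3 : β (mob g z) ≤ ∑ g ∈ F, β (mob g.1 z) :=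
      hab2_single F (fun g : CongruenceSubgroup.Gamma0 N => β (mob g.1 z)) (fun g => hβ0 _)
        (⟨g, hg⟩ : CongruenceSubgroup.Gamma0 N) hgF
    linarith
  · rintro z ⟨hz, h1⟩
    have e := hab2_per_mul N (β := β) (s := fun z => hab2_h (test_per N β z))
      (fun g hg z hz => congrArg hab2_h (hinv g hg z hz)) hz
    refine e.trans ?_
    show test_per N β z * hab2_h (test_per N β z) = 1
    rw [mul_comm]
    exact hab2_h_eq h1.le

/-- HAB2: Stokes for an invariant function and a function constant near the cusps -/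
theorem st_HAB2 (hU : ST_UNF) : ST_HAB2 := by
  intro N W ρ φ v K hN hW hφ hv hK hKU h0
  obtain ⟨a0, c1, c2, c3, O, hO, hOU, hOK, hO1⟩ := hab2_cut N hK hKU
  obtain ⟨b1, b2, b3⟩ := hab2_smul c1 c2 c3 hφ.smooth
  obtain ⟨h3, h4⟩ := hab2_unf hU N W ρ hN hW hv.smooth hv.eqv b1 b2 b3
  have hinv : ∀ g ∈ CongruenceSubgroup.Gamma0 N, ∀ z ∈ UH, φ (mob g z) = φ z := by
    intro g hg z hz
    have := hφ.eqv g hg z hz
    simpa using this
  have h5 : Set.EqOn (fun z => W z * JJ (test_per N (fun z => a0 z * φ z)) v z)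
      (fun z => W z * JJ φ v z) UH := by
    intro z hz
    show W z * _ = W z * _
    congr 1
    by_cases hg : ∀ g ∈ CongruenceSubgroup.Gamma0 N, mob g z ∉ K
    · obtain ⟨k1, k2⟩ := h0 z hz hg
      unfold JJ
      rw [k1, k2]
      simp
    · push Not at hg
      obtain ⟨g, hg, hgK⟩ := hg
      have hzO := hOK z hz g hg hgK
      have h6 : test_per N (fun z => a0 z * φ z) =ᶠ[𝓝 z] φ := by
        filter_upwards [hO.mem_nhds hzO] with w hw
        rw [hab2_per_mul N hinv (hOU hw), hO1 w hw, one_mul]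
      unfold JJ ux uy
      rw [h6.fderiv_eq]
  exact ⟨h3.congr_fun h5 test_open.measurableSet,
    (setIntegral_congr_fun test_open.measurableSet h5).symm.trans h4⟩

end Pool.Agent.Helper96.MP
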