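import Pool.Agent.Helper9.MP.Lat

/-!
# MP_bde085_nt, MAIND: the main theorem of block D in terms of cusps
-/

set_option autoImplicit false

namespace Pool.Agent.Helper96.MP

open Complex MeasureTheory Filter Topology
open scoped MatrixGroups

/-! ## Elementary estimates -/

theorem maind_psi (N : ℕ) (hN : 1 ≤ N) :
    Real.sqrt N ≤ psi N / 2 ^ N.primeFactors.card := by
  have hN0 : (0 : ℝ) < N := by exact_mod_cast hN
  have h1 : psi N / 2 ^ N.primeFactors.card = (N : ℝ) * ∏ p ∈ N.primeFactors, ((1 + 1 / (p : ℝ)) / 2) := by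
    unfold psi
    rw [Finset.prod_div_distrib, Finset.prod_const]
    ring
  have h2 : ∏ p ∈ N.primeFactors, (1 / Real.sqrt (p : ℝ)) ≤ ∏ p ∈ N.primeFactors, ((1 + 1 / (p : ℝ)) / 2) := by
    apply Finset.prod_le_prod
    · intro p _
      positivity
    · intro p hp
      have hp0 : (0 : ℝ) < p := by exact_mod_cast (Nat.prime_of_mem_primeFactors hp).pos
      have hs : 0 < Real.sqrt (p : ℝ) := Real.sqrt_pos.2 hp0
      have hss : Real.sqrt (p : ℝ) ^ 2 = p := Real.sq_sqrt hp0.le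
      have e : (1 + 1 / (p : ℝ)) / 2 - 1 / Real.sqrt (p : ℝ) = (1 - 1 / Real.sqrt (p : ℝ)) ^ 2 / 2 := by
        have : (1 / (p : ℝ)) = (1 / Real.sqrt (p : ℝ)) ^ 2 := by
          rw [div_pow, hss, one_pow]
        rw [this]
        ring
      have : 0 ≤ (1 - 1 / Real.sqrt (p : ℝ)) ^ 2 / 2 := by positivity
      linarith
  have h3 : ∏ p ∈ N.primeFactors, (1 / Real.sqrt (p : ℝ)) = 1 / ∏ p ∈ N.primeFactors, Real.sqrt (p : ℝ) := by
    rw [Finset.prod_div_distrib, Finset.prod_const_one]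
  have h4 : (∏ p ∈ N.primeFactors, Real.sqrt (p : ℝ)) ^ 2 = ((∏ p ∈ N.primeFactors, p : ℕ) : ℝ) := by
    rw [← Finset.prod_pow]
    push_cast
    refine Finset.prod_congr rfl fun p _ => ?_
    exact Real.sq_sqrt (Nat.cast_nonneg p)
  have h5 : ((∏ p ∈ N.primeFactors, p : ℕ) : ℝ) ≤ N := by
    exact_mod_cast Nat.le_of_dvd hN (Nat.prod_primeFactors_dvd N)
  have h6 : 0 < ∏ p ∈ N.primeFactors, Real.sqrt (p : ℝ) := by
    apply Finset.prod_pos
    intro p hp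
    exact Real.sqrt_pos.2 (by exact_mod_cast (Nat.prime_of_mem_primeFactors hp).pos)
  have h7 : ∏ p ∈ N.primeFactors, Real.sqrt (p : ℝ) ≤ Real.sqrt N := by
    apply Real.le_sqrt_of_sq_le
    rw [h4]
    exact h5
  rw [h1]
  calc Real.sqrt N = (N : ℝ) / Real.sqrt N := by
        rw [Real.div_sqrt]
    _ ≤ (N : ℝ) / ∏ p ∈ N.primeFactors, Real.sqrt (p : ℝ) := by
        apply div_le_div_of_nonneg_left hN0.le h6 h7
    _ = (N : ℝ) * ∏ p ∈ N.primeFactors, (1 / Real.sqrt (p : ℝ)) := by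
        rw [h3]
        ring
    _ ≤ _ := mul_le_mul_of_nonneg_left h2 hN0.le

theorem maind_one_le_sqrt (N : ℕ) (hN : 1 ≤ N) : 1 ≤ Real.sqrt N := by
  rw [Real.one_le_sqrt]
  exact_mod_cast hN

theorem maind_log (N : ℕ) (hN : 1 ≤ N) :
    1 + Real.log (1 + 100 * (N : ℝ) ^ 10) ≤ 122 * Real.sqrt N := by
  have hN1 : (1 : ℝ) ≤ N := by exact_mod_cast hN
  have hs := maind_one_le_sqrt N hN
  have h1 : 1 + 100 * (N : ℝ) ^ 10 ≤ 101 * (N : ℝ) ^ 10 := by
    have : (1 : ℝ) ≤ (N : ℝ) ^ 10 := one_le_pow₀ hN1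
    linarith
  have h2 : Real.log (1 + 100 * (N : ℝ) ^ 10) ≤ Real.log (101 * (N : ℝ) ^ 10) :=
    Real.log_le_log (by positivity) h1
  have h3 : Real.log (101 * (N : ℝ) ^ 10) = Real.log 101 + 20 * Real.log (Real.sqrt N) := by
    rw [Real.log_mul (by norm_num) (by positivity), Real.log_pow, Real.log_sqrt (by positivity)]
    push_cast
    ring
  have h4 : Real.log 101 ≤ 101 - 1 := Real.log_le_sub_one_of_pos (by norm_num)
  have h5 : Real.log (Real.sqrt N) ≤ Real.sqrt N - 1 := Real.log_le_sub_one_of_pos (by linarith)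
  linarith

/-! ## Periods are a homomorphism -/

theorem maind_mul {N : ℕ} {f : ℕ → ℂ} (h : EqC N (FC f)) (g g' : SL(2, ℤ))
    (hg : g ∈ CongruenceSubgroup.Gamma0 N) :
    FC f ((g * g') 0 0) ((g * g') 1 0) = FC f (g' 0 0) (g' 1 0) + FC f (g 0 0) (g 1 0) := by
  have h1 := h _ _ _ _ (Lib.g0_of_mem hg) (g' 0 0) (g' 1 0) (by
    by_contra hc
    push Not at hc
    have := Lib.det1 g'
    rw [hc.1, hc.2] at this
    norm_num at this)
  have h2 : FC f 1 0 = 0 := by simp [FC]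
  rw [h2, sub_zero] at h1
  rw [Lib.mul00, Lib.mul10, h1]

/-- a non zero linear functional of the periods does not vanish on small matrices -/
theorem maind_small (hG : ST_GEN) {N : ℕ} (hN : 1 ≤ N) {f : ℕ → ℂ} (h : EqC N (FC f)) (φ : ℂ →+ ℝ)
    (g : SL(2, ℤ)) (hg : g ∈ CongruenceSubgroup.Gamma0 N) (h0 : φ (FC f (g 0 0) (g 1 0)) ≠ 0) :
    ∃ g' : SL(2, ℤ), g' ∈ CongruenceSubgroup.Gamma0 N ∧ |g' 1 0| ≤ 100 * (N : ℤ) ^ 10 ∧
      φ (FC f (g' 0 0) (g' 1 0)) ≠ 0 := by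
  by_contra hc
  push Not at hc
  apply h0
  have h1 : g ∈ Subgroup.closure {γ : SL(2, ℤ) | γ ∈ CongruenceSubgroup.Gamma0 N ∧ |γ 1 0| ≤ 100 * (N : ℤ) ^ 10} := by
    rw [hG N hN]
    exact hg
  have key : ∀ x ∈ Subgroup.closure {γ : SL(2, ℤ) | γ ∈ CongruenceSubgroup.Gamma0 N ∧
      |γ 1 0| ≤ 100 * (N : ℤ) ^ 10}, x ∈ CongruenceSubgroup.Gamma0 N ∧ φ (FC f (x 0 0) (x 1 0)) = 0 := by
    intro x hx
    induction hx using Subgroup.closure_induction with
    | mem x hx => exact ⟨hx.1, hc x hx.1 hx.2⟩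
    | one => exact ⟨one_mem _, by simp [FC]⟩
    | mul x y _ _ hx hy =>
      refine ⟨mul_mem hx.1 hy.1, ?_⟩
      rw [maind_mul h x y hx.1, map_add, hx.2, hy.2, add_zero]
    | inv x _ hx =>
      refine ⟨inv_mem hx.1, ?_⟩
      have h3 := maind_mul h x x⁻¹ hx.1
      rw [mul_inv_cancel] at h3
      have h4 : FC f ((1 : SL(2, ℤ)) 0 0) ((1 : SL(2, ℤ)) 1 0) = 0 := by simp [FC]
      rw [h4] at h3
      have h5 : φ 0 = φ (FC f (x⁻¹ 0 0) (x⁻¹ 1 0)) + φ (FC f (x 0 0) (x 1 0)) := by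
        rw [← map_add, ← h3]
      rw [map_zero, hx.2, add_zero] at h5
      exact h5.symm
  exact (key g h1).2

/-! ## Lattices in the plane -/

theorem maind_int_abs {x : ℝ} {k : ℤ} (h : x = k) (h0 : x ≠ 0) : 1 ≤ |x| := by
  rw [h] at h0 ⊢
  have : k ≠ 0 := by
    intro e
    rw [e] at h0
    simp at h0
  exact_mod_cast Int.one_le_abs this

theorem maind_lattice (P : ℂ → Prop) (e1 e2 : ℂ) (hP : ∀ α, P α ↔ ∃ k1 k2 : ℤ, α = k1 * e1 + k2 * e2)
    (hc : ∀ α, P α → P ((starRingEnd ℂ) α)) (hE : (e1 * (starRingEnd ℂ) e2).im ≠ 0) (h : ℝ)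
    (hx : ∀ x : ℝ, P (x : ℂ) → ∃ k : ℤ, x * h = k) (h0 : h ≠ 0) :
    ∃ α, P α ∧ α.im ≠ 0 ∧ |α.im| ≤ |(e1 * (starRingEnd ℂ) e2).im| * |h| := by
  have hE' : (e1 * (starRingEnd ℂ) e2).im = e1.im * e2.re - e1.re * e2.im := by
    simp only [mul_im, conj_re, conj_im]
    ring
  have hadd : ∀ α β, P α → P β → P (α + β) := by
    intro α β ha hb
    obtain ⟨k1, k2, rfl⟩ := (hP _).1 ha
    obtain ⟨l1, l2, rfl⟩ := (hP _).1 hb
    refine (hP _).2 ⟨k1 + l1, k2 + l2, ?_⟩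
    push_cast
    ring
  have h1 : P e1 := (hP _).2 ⟨1, 0, by simp⟩
  have h2 : P e2 := (hP _).2 ⟨0, 1, by simp⟩
  -- a nonzero real element
  have h3 : ∃ x : ℝ, x ≠ 0 ∧ P (x : ℂ) := by
    by_cases hr : e1.re = 0
    · have hr2 : e2.re ≠ 0 := by
        intro hr2
        apply hE
        rw [hE', hr, hr2]
        ring
      refine ⟨2 * e2.re, by simpa using hr2, ?_⟩
      have := hadd _ _ h2 (hc _ h2)
      rwa [Complex.add_conj] at this
    · refine ⟨2 * e1.re, by simpa using hr, ?_⟩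
      have := hadd _ _ h1 (hc _ h1)
      rwa [Complex.add_conj] at this
  obtain ⟨x0, hx0, hPx0⟩ := h3
  obtain ⟨k1, k2, hk⟩ := (hP _).1 hPx0
  have hg : (Int.gcd k1 k2 : ℤ) ≠ 0 := by
    intro hg
    have hg' : Int.gcd k1 k2 = 0 := by exact_mod_cast hg
    obtain ⟨a, b⟩ := Int.gcd_eq_zero_iff.1 hg'
    rw [a, b] at hk
    apply hx0
    have : (x0 : ℂ) = 0 := by
      rw [hk]
      simp
    exact_mod_cast this
  obtain ⟨l1, hl1⟩ := Int.gcd_dvd_left k1 k2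
  obtain ⟨l2, hl2⟩ := Int.gcd_dvd_right k1 k2
  have hbez := Int.gcd_eq_gcd_ab k1 k2
  set g : ℤ := (Int.gcd k1 k2 : ℤ) with hgdef
  set u := Int.gcdA k1 k2
  set v := Int.gcdB k1 k2
  have hbz : l1 * u + l2 * v = 1 := by
    have : g * (l1 * u + l2 * v) = g * 1 := by
      rw [mul_one]
      calc g * (l1 * u + l2 * v) = (g * l1) * u + (g * l2) * v := by ring
        _ = g := by rw [← hl1, ← hl2, ← hbez]
    exact mul_left_cancel₀ hg this
  have hgC : (g : ℂ) ≠ 0 := by exact_mod_cast hg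
  have hgR : (g : ℝ) ≠ 0 := by exact_mod_cast hg
  set x : ℝ := x0 / g with hxdef
  have hxx : (x : ℂ) = l1 * e1 + l2 * e2 := by
    have h5 : (x0 : ℂ) = g * (l1 * e1 + l2 * e2) := by
      rw [hk]
      have a1 : (k1 : ℂ) = g * l1 := by exact_mod_cast congrArg (fun n : ℤ => (n : ℂ)) hl1
      have a2 : (k2 : ℂ) = g * l2 := by exact_mod_cast congrArg (fun n : ℤ => (n : ℂ)) hl2
      rw [a1, a2]
      ring
    rw [hxdef]
    push_cast
    rw [h5]
    field_simp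
  have hx1 : x ≠ 0 := div_ne_zero hx0 hgR
  have hPx : P (x : ℂ) := (hP _).2 ⟨l1, l2, hxx⟩
  obtain ⟨k, hkk⟩ := hx x hPx
  have hge : 1 ≤ |x| * |h| := by
    rw [← abs_mul]
    exact maind_int_abs hkk (mul_ne_zero hx1 h0)
  let α : ℂ := ((-v : ℤ) : ℂ) * e1 + (u : ℂ) * e2
  have hα : P α := (hP _).2 ⟨-v, u, rfl⟩
  have him : x * α.im = -(e1 * (starRingEnd ℂ) e2).im := by
    have r1 : x = l1 * e1.re + l2 * e2.re := by
      have := congrArg Complex.re hxx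
      simpa using this
    have r2 : 0 = l1 * e1.im + l2 * e2.im := by
      have := congrArg Complex.im hxx
      simpa using this
    have r3 : α.im = -v * e1.im + u * e2.im := by
      simp [α]
    have hbR : (l1 : ℝ) * u + l2 * v = 1 := by exact_mod_cast hbz
    rw [hE', r3, r1]
    linear_combination (v * e1.re - u * e2.re) * r2 + (e1.re * e2.im - e1.im * e2.re) * hbR
  have him2 : |x| * |α.im| = |(e1 * (starRingEnd ℂ) e2).im| := by
    rw [← abs_mul, him, abs_neg]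
  refine ⟨α, hα, ?_, ?_⟩
  · intro e
    rw [e, abs_zero, mul_zero] at him2
    exact hE (abs_eq_zero.1 him2.symm)
  · rw [← him2]
    calc |α.im| = |α.im| * 1 := (mul_one _).symm
      _ ≤ |α.im| * (|x| * |h|) := mul_le_mul_of_nonneg_left hge (abs_nonneg _)
      _ = |x| * |α.im| * |h| := by ring

/-- the rotated version -/
theorem maind_lattice' (P : ℂ → Prop) (e1 e2 : ℂ) (hP : ∀ α, P α ↔ ∃ k1 k2 : ℤ, α = k1 * e1 + k2 * e2)
    (hc : ∀ α, P α → P ((starRingEnd ℂ) α)) (hE : (e1 * (starRingEnd ℂ) e2).im ≠ 0) (h : ℝ)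
    (hx : ∀ x : ℝ, P (-(I * x)) → ∃ k : ℤ, x * h = k) (h0 : h ≠ 0) :
    ∃ α, P α ∧ α.re ≠ 0 ∧ |α.re| ≤ |(e1 * (starRingEnd ℂ) e2).im| * |h| := by
  have hE2 : ((I * e1) * (starRingEnd ℂ) (I * e2)) = e1 * (starRingEnd ℂ) e2 := by
    rw [map_mul, conj_I]
    linear_combination (-(e1 * (starRingEnd ℂ) e2)) * I_mul_I
  obtain ⟨β, hβ, h1, h2⟩ := maind_lattice (fun β => P (-(I * β))) (I * e1) (I * e2) (by
    intro β
    constructor
    · intro hb
      obtain ⟨k1, k2, hk⟩ := (hP _).1 hb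
      refine ⟨k1, k2, ?_⟩
      have : β = I * (-(I * β)) := by
        linear_combination β * I_mul_I
      rw [this, hk]
      ring
    · rintro ⟨k1, k2, rfl⟩
      refine (hP _).2 ⟨k1, k2, ?_⟩
      linear_combination (-(k1 * e1 + k2 * e2)) * I_mul_I) (by
    intro β hb
    have h3 := hc _ hb
    have h4 : (starRingEnd ℂ) (-(I * β)) = I * (starRingEnd ℂ) β := by
      rw [map_neg, map_mul, conj_I]
      ring
    rw [h4] at h3
    obtain ⟨k1, k2, hk⟩ := (hP _).1 h3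
    refine (hP _).2 ⟨-k1, -k2, ?_⟩
    rw [hk]
    push_cast
    ring) (by rw [hE2]; exact hE) h hx h0
  refine ⟨-(I * β), hβ, ?_, ?_⟩
  · simpa using h1
  · rw [hE2] at h2
    simpa using h2

/-! ## The period lattice -/

theorem maind_smul (hF : ST_FCL) {N : ℕ} (hN : 1 ≤ N) {f : ℕ → ℂ} (hf : Cusp N f) (α : ℂ) :
    Cusp N (fun n => α * f n) ∧ ∀ p q : ℤ, FC (fun n => α * f n) p q = α * FC f p q := by
  have := hF N f f α hN hf hf
  exact ⟨this.2.1, this.2.2.2.1⟩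

theorem maind_mem (hF : ST_FCL) {N : ℕ} (hN : 1 ≤ N) {f : ℕ → ℂ} (hf : Cusp N f) (α : ℂ) :
    (fun n => α * f n) ∈ Lc N ↔ ∀ p q r s : ℤ, G0 N p q r s → ∃ k : ℤ, (α * FC f p r).re = k := by
  obtain ⟨h1, h2⟩ := maind_smul hF hN hf α
  have h3 : FC (fun n => α * f n) 1 0 = 0 := by simp [FC]
  constructor
  · rintro ⟨_, h⟩ p q r s hg
    obtain ⟨k, hk⟩ := h p q r s hg
    rw [h3, sub_zero, h2] at hk
    exact ⟨k, hk⟩
  · intro h
    refine ⟨h1, fun p q r s hg => ?_⟩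
    obtain ⟨k, hk⟩ := h p q r s hg
    refine ⟨k, ?_⟩
    rw [h3, sub_zero, h2]
    exact hk

theorem maind_star {N : ℕ} {f : ℕ → ℂ} (hH : Hom0 (FC f))
    (hc : ∀ p q : ℤ, FC f (-p) q = (starRingEnd ℂ) (FC f p q)) (α : ℂ)
    (h : ∀ p q r s : ℤ, G0 N p q r s → ∃ k : ℤ, (α * FC f p r).re = k) :
    ∀ p q r s : ℤ, G0 N p q r s → ∃ k : ℤ, ((starRingEnd ℂ) α * FC f p r).re = k := by
  intro p q r s hg
  obtain ⟨k, hk⟩ := h p (-q) (-r) s ⟨by rw [← hg.1]; ring, (dvd_neg).2 hg.2⟩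
  refine ⟨k, ?_⟩
  have h1 : FC f p (-r) = (starRingEnd ℂ) (FC f p r) := by
    rw [← hc]
    have := hH (-1) (-p) r (by norm_num)
    rw [← this]
    congr 1 <;> ring
  rw [h1] at hk
  rw [← hk]
  simp only [mul_re, conj_re, conj_im]
  ring

theorem maind_final (κ C1 X w L l : ℝ) (hκ : 0 ≤ κ) (hC1 : 0 < C1) (hX1 : 1 ≤ X) (hw0 : 0 ≤ w)
    (hL0 : 0 ≤ L) (hLX : L ≤ 122 * X) (hl : l ≤ w + 1) :
    κ * L * Real.exp (C1 * X * (1 + w + l)) ≤ Real.exp ((κ + 122 + 2 * C1) * X * (1 + w)) := by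
  have hX0 : 0 ≤ X := by linarith
  have k1 : κ ≤ Real.exp (κ * X) := by
    have h3 := Real.add_one_le_exp (κ * X)
    have h4 : κ * 1 ≤ κ * X := mul_le_mul_of_nonneg_left hX1 hκ
    linarith
  have k2 : L ≤ Real.exp (122 * X) := by
    have h3 := Real.add_one_le_exp (122 * X)
    linarith
  have k3 : Real.exp (C1 * X * (1 + w + l)) ≤ Real.exp (2 * C1 * X * (1 + w)) := by
    apply Real.exp_le_exp.2
    have : C1 * X * (1 + w + l) ≤ C1 * X * (1 + w + (w + 1)) := by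
      apply mul_le_mul_of_nonneg_left _ (by positivity)
      linarith
    calc _ ≤ _ := this
      _ = 2 * C1 * X * (1 + w) := by ring
  calc κ * L * Real.exp (C1 * X * (1 + w + l))
      ≤ Real.exp (κ * X) * Real.exp (122 * X) * Real.exp (2 * C1 * X * (1 + w)) := by
        apply mul_le_mul _ k3 (Real.exp_nonneg _) (by positivity)
        exact mul_le_mul k1 k2 hL0 (Real.exp_nonneg _)
    _ = Real.exp (κ * X + 122 * X + 2 * C1 * X * (1 + w)) := by
        rw [← Real.exp_add, ← Real.exp_add]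
    _ ≤ _ := by
        apply Real.exp_le_exp.2
        have h3 : 0 ≤ (κ + 122) * X * w := by positivity
        have e : (κ + 122 + 2 * C1) * X * (1 + w)
            = κ * X + 122 * X + 2 * C1 * X * (1 + w) + (κ + 122) * X * w := by ring
        rw [e]
        linarith

/-- MAIND: the main theorem in terms of cusps -/
theorem st_MAIND (hD : ST_DISCF) (hB : ST_HB) (hG : ST_GEN) (hFl : ST_FLIM) (hF : ST_FCL)
    (hHab : ST_HAB) (hInt : ST_INT) (hP : ST_PET) (hW : ST_WT) (hS : ST_SMP) : ST_MAIND := by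
  obtain ⟨C1, hC1, hD⟩ := hD
  obtain ⟨CH, hCH, hB⟩ := hB
  obtain ⟨c, hHab⟩ := hHab
  obtain ⟨C0, hC0, hP⟩ := hP
  have hc2 : 0 ≤ 2 * CH ^ 2 * C0 / |c| := by positivity
  refine ⟨2 * CH ^ 2 * C0 / |c| + 122 + 2 * C1, by positivity, ?_⟩
  intro N a hN ha p1 r1 p2 r2 q1 s1 q2 s2 Ω₁ Ω₂ g1 g2 e1 e2 h1im h1 h2 h2re h2lt p q r s hg m n hmn
  set f : ℕ → ℂ := fun k => (a k : ℂ) with hf
  have hfc : Cusp N f := ha.cusp
  obtain ⟨-, hHom, hEq, -, hconj⟩ := hFl N f hN hfc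
  have hconj := hconj (fun k => by simp [hf])
  obtain ⟨W, hWok⟩ := hW N hN
  have hc0 : c ≠ 0 := by
    intro hc
    have hBc : ∀ b b' : ℕ → ℂ, Cusp N b → Cusp N b' → Bc N b b' = 0 := by
      intro b b' hb hb'
      rw [hHab N W hN hWok b b' hb hb', hc, zero_mul]
    obtain ⟨t, ht⟩ : ∃ t : ℝ, t = 1 / (4 * Ω₁.re) := ⟨_, rfl⟩
    obtain ⟨hcu, -⟩ := maind_smul hF hN hfc (t : ℂ)
    have h3 := (hInt N hN).2 (fun n => (t : ℂ) * f n) hcu (fun b hb => ⟨0, by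
      rw [hBc _ _ hcu hb.1]; simp⟩)
    have h4 : (fun n => 2 * ((t : ℂ) * f n)) = (fun n => (2 * (t : ℂ)) * f n) := by
      funext n
      ring
    rw [h4, maind_mem hF hN hfc] at h3
    obtain ⟨k, hk⟩ := h3 _ _ _ _ g1
    rw [← e1] at hk
    have h5 : (2 * (t : ℂ) * Ω₁).re = 1 / 2 := by
      have : (2 * (t : ℂ) * Ω₁).re = 2 * t * Ω₁.re := by
        simp only [mul_re, ofReal_re, ofReal_im, re_ofNat, im_ofNat, mul_im]
        ring
      rw [this, ht]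
      field_simp
      norm_num
    rw [h5] at hk
    have h6 : (1 : ℝ) = ((2 * k : ℤ) : ℝ) := by
      push_cast
      linarith
    have h7 : (1 : ℤ) = 2 * k := by exact_mod_cast h6
    omega
  -- the lattice
  obtain ⟨ℓ, hℓ, hℓN, hℓs⟩ := hS N hN
  obtain ⟨e₁, e₂, hE, hL, hDb⟩ := hD N ℓ a hN hℓ hℓN ha
  set E : ℝ := |(e₁ * (starRingEnd ℂ) e₂).im| with hEdef
  have hE0 : 0 ≤ E := abs_nonneg _
  let P : ℂ → Prop := fun α => ∀ p q r s : ℤ, G0 N p q r s → ∃ k : ℤ, (α * FC f p r).re = k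
  have hPL : ∀ α, P α ↔ ∃ k1 k2 : ℤ, α = k1 * e₁ + k2 * e₂ := by
    intro α
    rw [← hL α]
    exact (maind_mem hF hN hfc α).symm
  have hPc : ∀ α, P α → P ((starRingEnd ℂ) α) := fun α h => maind_star hHom hconj α h
  have hPadd : ∀ α β, P α → P β → P (α + β) := by
    intro α β ha hb p q r s hg
    obtain ⟨k, hk⟩ := ha p q r s hg
    obtain ⟨l, hl⟩ := hb p q r s hg
    refine ⟨k + l, ?_⟩
    rw [add_mul, add_re, hk, hl]
    push_cast
    ring
  have hPneg : ∀ α, P α → P (-α) := by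
    intro α ha p q r s hg
    obtain ⟨k, hk⟩ := ha p q r s hg
    refine ⟨-k, ?_⟩
    rw [neg_mul, neg_re, hk]
    push_cast
    ring
  -- small matrices
  let γ1 : SL(2, ℤ) := ⟨!![p1, q1; r1, s1], by rw [Matrix.det_fin_two_of]; exact g1.1⟩
  let γ2 : SL(2, ℤ) := ⟨!![p2, q2; r2, s2], by rw [Matrix.det_fin_two_of]; exact g2.1⟩
  have hγ1 : γ1 ∈ CongruenceSubgroup.Gamma0 N := Lib.mem_of_dvd g1.2
  have hγ2 : γ2 ∈ CongruenceSubgroup.Gamma0 N := Lib.mem_of_dvd g2.2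
  obtain ⟨gR, hgR, hgRs, hgR0⟩ := maind_small hG hN hEq Complex.reAddGroupHom γ1 hγ1 (by
    have : FC f (γ1 0 0) (γ1 1 0) = Ω₁ := e1.symm
    rw [this]
    exact h1.ne')
  obtain ⟨gI, hgI, hgIs, hgI0⟩ := maind_small hG hN hEq Complex.imAddGroupHom γ2 hγ2 (by
    have : FC f (γ2 0 0) (γ2 1 0) = Ω₂ := e2.symm
    rw [this]
    exact h2.ne')
  set hR : ℝ := (FC f (gR 0 0) (gR 1 0)).re with hRdef
  set hI : ℝ := (FC f (gI 0 0) (gI 1 0)).im with hIdef
  have hR0 : hR ≠ 0 := hgR0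
  have hI0 : hI ≠ 0 := hgI0
  obtain ⟨α, hα, hαi, hαb⟩ := maind_lattice P e₁ e₂ hPL hPc hE hR (by
    intro x hx
    obtain ⟨k, hk⟩ := hx _ _ _ _ (Lib.g0_of_mem hgR)
    refine ⟨k, ?_⟩
    rw [← hk, re_ofReal_mul]) hR0
  obtain ⟨β, hβ, hβr, hβb⟩ := maind_lattice' P e₁ e₂ hPL hPc hE hI (by
    intro x hx
    obtain ⟨k, hk⟩ := hx _ _ _ _ (Lib.g0_of_mem hgI)
    refine ⟨k, ?_⟩
    rw [← hk, hIdef]
    simp) hI0
  -- lower bounds for the periods
  have low2 : 1 ≤ 2 * (E * |hR|) * Ω₂.im := by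
    have h3 := hPadd _ _ hα (hPneg _ (hPc _ hα))
    obtain ⟨k, hk⟩ := h3 _ _ _ _ g2
    rw [← e2] at hk
    have h4 : ((α + -(starRingEnd ℂ) α) * Ω₂).re = -(2 * α.im * Ω₂.im) := by
      simp only [mul_re, add_re, add_im, neg_re, neg_im, conj_re, conj_im]
      ring
    rw [h4] at hk
    have h5 := maind_int_abs hk (by
      rw [neg_ne_zero]
      exact mul_ne_zero (mul_ne_zero two_ne_zero hαi) h2.ne')
    rw [abs_neg, abs_mul, abs_mul, abs_two, abs_of_pos h2] at h5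
    calc (1 : ℝ) ≤ 2 * |α.im| * Ω₂.im := h5
      _ ≤ 2 * (E * |hR|) * Ω₂.im := by
        apply mul_le_mul_of_nonneg_right _ h2.le
        linarith
  have low1 : 1 ≤ 2 * (E * |hI|) * Ω₁.re := by
    have h3 := hPadd _ _ hβ (hPc _ hβ)
    obtain ⟨k, hk⟩ := h3 _ _ _ _ g1
    rw [← e1] at hk
    have h4 : ((β + (starRingEnd ℂ) β) * Ω₁).re = 2 * β.re * Ω₁.re := by
      simp only [mul_re, add_re, add_im, conj_re, conj_im]
      ring
    rw [h4] at hk
    have h5 := maind_int_abs hk (mul_ne_zero (mul_ne_zero two_ne_zero hβr) h1.ne')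
    rw [abs_mul, abs_mul, abs_two, abs_of_pos h1] at h5
    calc (1 : ℝ) ≤ 2 * |β.re| * Ω₁.re := h5
      _ ≤ 2 * (E * |hI|) * Ω₁.re := by
        apply mul_le_mul_of_nonneg_right _ h1.le
        linarith
  -- bounds for the coordinates
  set H : ℂ := FC f p r with hHdef
  have hre : H.re = m * Ω₁.re + n * Ω₂.re := by
    rw [hmn]
    simp
  have him : H.im = n * Ω₂.im := by
    rw [hmn]
    simp [h1im]
  have hn1 : |(n : ℝ)| ≤ 2 * (E * |hR|) * ‖H‖ := by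
    have h3 : |(n : ℝ)| * Ω₂.im ≤ ‖H‖ := by
      calc |(n : ℝ)| * Ω₂.im = |H.im| := by rw [him, abs_mul, abs_of_pos h2]
        _ ≤ ‖H‖ := abs_im_le_norm H
    calc |(n : ℝ)| = |(n : ℝ)| * 1 := (mul_one _).symm
      _ ≤ |(n : ℝ)| * (2 * (E * |hR|) * Ω₂.im) := mul_le_mul_of_nonneg_left low2 (abs_nonneg _)
      _ = 2 * (E * |hR|) * (|(n : ℝ)| * Ω₂.im) := by ring
      _ ≤ 2 * (E * |hR|) * ‖H‖ := mul_le_mul_of_nonneg_left h3 (by positivity)
  have hm1 : |(m : ℝ)| ≤ 2 * (E * |hI|) * ‖H‖ + |(n : ℝ)| := by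
    have h3 : |(m : ℝ)| * Ω₁.re ≤ ‖H‖ + |(n : ℝ)| * Ω₁.re := by
      calc |(m : ℝ)| * Ω₁.re = |H.re - n * Ω₂.re| := by
            rw [hre, add_sub_cancel_right, abs_mul, abs_of_pos h1]
        _ ≤ |H.re| + |n * Ω₂.re| := abs_sub _ _
        _ ≤ ‖H‖ + |(n : ℝ)| * Ω₁.re := by
          apply add_le_add (abs_re_le_norm H)
          rw [abs_mul, abs_of_nonneg h2re]
          exact mul_le_mul_of_nonneg_left h2lt.le (abs_nonneg _)
    by_cases hle : |(m : ℝ)| ≤ |(n : ℝ)|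
    · have : 0 ≤ 2 * (E * |hI|) * ‖H‖ := by positivity
      linarith
    · have hd : 0 ≤ |(m : ℝ)| - |(n : ℝ)| := by
        push Not at hle
        linarith
      have h4 : (|(m : ℝ)| - |(n : ℝ)|) * Ω₁.re ≤ ‖H‖ := by
        rw [sub_mul]
        linarith
      have h5 : |(m : ℝ)| - |(n : ℝ)| ≤ 2 * (E * |hI|) * ‖H‖ := by
        calc |(m : ℝ)| - |(n : ℝ)| = (|(m : ℝ)| - |(n : ℝ)|) * 1 := (mul_one _).symm
          _ ≤ (|(m : ℝ)| - |(n : ℝ)|) * (2 * (E * |hI|) * Ω₁.re) := mul_le_mul_of_nonneg_left low1 hd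
          _ = 2 * (E * |hI|) * ((|(m : ℝ)| - |(n : ℝ)|) * Ω₁.re) := by ring
          _ ≤ 2 * (E * |hI|) * ‖H‖ := mul_le_mul_of_nonneg_left h4 (by positivity)
      linarith
  -- the norm
  have hPf := hP N W hN hWok f f f hfc hfc hfc
  set Pf : ℝ := (pet W f f).re with hPfdef
  have hPf0 : 0 ≤ Pf := hPf.2.2.2.2.2.1
  have hPfim : (pet W f f).im = 0 := hPf.2.2.2.2.1
  have hnrm : nrm N f ≤ C0 * Pf := hPf.2.2.2.2.2.2.2
  have hdet : |2 * Bc N (fun n => e₁ * (a n : ℂ)) (fun n => e₂ * (a n : ℂ))| = 2 * |c| * E * Pf := by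
    obtain ⟨hc1, -⟩ := maind_smul hF hN hfc e₁
    obtain ⟨hc2', -⟩ := maind_smul hF hN hfc e₂
    have h3 : pet W (fun n => e₁ * f n) (fun n => e₂ * f n) = e₁ * (starRingEnd ℂ) e₂ * (Pf : ℂ) := by
      rw [(hP N W hN hWok f (fun n => e₂ * f n) f hfc hc2' hfc).2.2.1 e₁]
      rw [(hP N W hN hWok (fun n => e₂ * f n) f f hc2' hfc hfc).2.2.2.1]
      rw [hPf.2.2.1 e₂]
      have : pet W f f = (Pf : ℂ) := by
        apply Complex.ext
        · simp [hPfdef]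
        · simpa using hPfim
      rw [this, map_mul, conj_ofReal]
      ring
    have h4 := hHab N W hN hWok (fun n => e₁ * f n) (fun n => e₂ * f n) hc1 hc2'
    have h5 : Bc N (fun n => e₁ * (a n : ℂ)) (fun n => e₂ * (a n : ℂ)) = c * ((e₁ * (starRingEnd ℂ) e₂).im * Pf) := by
      rw [h4, h3, im_mul_ofReal]
    rw [h5, hEdef, abs_mul, abs_mul, abs_mul, abs_two, abs_of_nonneg hPf0]
    ring
  rw [hdet] at hDb
  set X : ℝ := psi N / 2 ^ N.primeFactors.card with hXdef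
  have hXs := maind_psi N hN
  have hs1 := maind_one_le_sqrt N hN
  have hX1 : 1 ≤ X := hs1.trans hXs
  set w : ℝ := (N.primeFactors.card : ℝ) with hwdef
  have hw0 : 0 ≤ w := Nat.cast_nonneg _
  have hlogℓ : Real.log ℓ ≤ w + 1 := by
    have hl0 : (0 : ℝ) < ℓ := by exact_mod_cast hℓ.pos
    have h3 : (ℓ : ℝ) ≤ 2 ^ (N.primeFactors.card + 1) := by exact_mod_cast hℓs
    calc Real.log ℓ ≤ Real.log (2 ^ (N.primeFactors.card + 1)) := Real.log_le_log hl0 h3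
      _ = (w + 1) * Real.log 2 := by
        rw [Real.log_pow]
        push_cast
        rfl
      _ ≤ (w + 1) * 1 := by
        apply mul_le_mul_of_nonneg_left _ (by linarith)
        have := Real.log_two_lt_d9
        linarith
      _ = w + 1 := mul_one _
  -- the periods of small matrices
  set L : ℝ := 1 + Real.log (1 + 100 * (N : ℝ) ^ 10) with hLdef
  have hL0 : 0 ≤ L := by
    have : 0 ≤ Real.log (1 + 100 * (N : ℝ) ^ 10) := Real.log_nonneg (by
      have : (0 : ℝ) ≤ 100 * (N : ℝ) ^ 10 := by positivity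
      linarith)
    linarith
  have hsmall : ∀ g : SL(2, ℤ), g ∈ CongruenceSubgroup.Gamma0 N → |g 1 0| ≤ 100 * (N : ℤ) ^ 10 →
      ‖FC f (g 0 0) (g 1 0)‖ ≤ CH * Real.sqrt (nrm N f) * L := by
    intro g hg hgs
    have h3 := hB N f hN hfc _ _ _ _ (Lib.g0_of_mem hg)
    have h4 : FC f 1 0 = 0 := by simp [FC]
    rw [h4, sub_zero] at h3
    refine h3.trans (mul_le_mul_of_nonneg_left ?_ (by positivity))
    rw [hLdef]
    have h5 : |((g 1 0 : ℤ) : ℝ)| ≤ 100 * (N : ℝ) ^ 10 := by exact_mod_cast hgs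
    have h6 : Real.log (1 + |((g 1 0 : ℤ) : ℝ)|) ≤ Real.log (1 + 100 * (N : ℝ) ^ 10) := by
      apply Real.log_le_log
      · positivity
      · linarith
    linarith
  have hRb : |hR| ≤ CH * Real.sqrt (nrm N f) * L := (abs_re_le_norm _).trans (hsmall gR hgR hgRs)
  have hIb : |hI| ≤ CH * Real.sqrt (nrm N f) * L := (abs_im_le_norm _).trans (hsmall gI hgI hgIs)
  set R : ℝ := 1 + Real.log (1 + |(r : ℝ)|) with hRRdef
  have hRR0 : 0 ≤ R := by
    have : 0 ≤ Real.log (1 + |(r : ℝ)|) := Real.log_nonneg (by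
      have := abs_nonneg (r : ℝ)
      linarith)
    linarith
  have hHb : ‖H‖ ≤ CH * Real.sqrt (nrm N f) * R := by
    have h3 := hB N f hN hfc _ _ _ _ hg
    have h4 : FC f 1 0 = 0 := by simp [FC]
    rw [h4, sub_zero] at h3
    exact h3
  have hsq : Real.sqrt (nrm N f) ^ 2 ≤ C0 * Pf := by
    have h3 : Real.sqrt (nrm N f) ≤ Real.sqrt (C0 * Pf) := Real.sqrt_le_sqrt hnrm
    calc Real.sqrt (nrm N f) ^ 2 ≤ Real.sqrt (C0 * Pf) ^ 2 :=
          pow_le_pow_left₀ (Real.sqrt_nonneg _) h3 2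
      _ = C0 * Pf := Real.sq_sqrt (by positivity)
  have hEP : E * Pf ≤ Real.exp (C1 * X * (1 + w + Real.log ℓ)) / (2 * |c|) := by
    rw [le_div_iff₀ (by positivity)]
    linarith
  set T : ℝ := 2 * CH ^ 2 * C0 / |c| * L * Real.exp (C1 * X * (1 + w + Real.log ℓ)) with hTdef
  have key : ∀ x : ℝ, |x| ≤ CH * Real.sqrt (nrm N f) * L → 2 * (E * |x|) * ‖H‖ ≤ T / 2 * R := by
    intro x hx
    calc 2 * (E * |x|) * ‖H‖ ≤ 2 * (E * (CH * Real.sqrt (nrm N f) * L)) * (CH * Real.sqrt (nrm N f) * R) := by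
          apply mul_le_mul _ hHb (norm_nonneg _) (by positivity)
          apply mul_le_mul_of_nonneg_left _ (by norm_num)
          exact mul_le_mul_of_nonneg_left hx hE0
      _ = 2 * CH ^ 2 * L * R * (E * Real.sqrt (nrm N f) ^ 2) := by ring
      _ ≤ 2 * CH ^ 2 * L * R * (E * (C0 * Pf)) := by
          apply mul_le_mul_of_nonneg_left _ (by positivity)
          exact mul_le_mul_of_nonneg_left hsq hE0
      _ = 2 * CH ^ 2 * C0 * L * R * (E * Pf) := by ring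
      _ ≤ 2 * CH ^ 2 * C0 * L * R * (Real.exp (C1 * X * (1 + w + Real.log ℓ)) / (2 * |c|)) :=
          mul_le_mul_of_nonneg_left hEP (by positivity)
      _ = T / 2 * R := by
          rw [hTdef]
          field_simp
  have hnT : |(n : ℝ)| ≤ T / 2 * R := hn1.trans (key _ hRb)
  have hmT : |(m : ℝ)| ≤ T * R := by
    have := key _ hIb
    linarith
  have hT0 : 0 ≤ T := by positivity
  have hTb : T ≤ Real.exp ((2 * CH ^ 2 * C0 / |c| + 122 + 2 * C1) * X * (1 + w)) :=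
    maind_final _ C1 X w L (Real.log ℓ) hc2 hC1 hX1 hw0 hL0 ((maind_log N hN).trans (by linarith)) hlogℓ
  constructor
  · calc |(m : ℝ)| ≤ T * R := hmT
      _ ≤ Real.exp ((2 * CH ^ 2 * C0 / |c| + 122 + 2 * C1) * X * (1 + w)) * R :=
        mul_le_mul_of_nonneg_right hTb hRR0
      _ = _ := mul_comm _ _
  · calc |(n : ℝ)| ≤ T / 2 * R := hnT
      _ ≤ T * R := mul_le_mul_of_nonneg_right (by linarith) hRR0
      _ ≤ Real.exp ((2 * CH ^ 2 * C0 / |c| + 122 + 2 * C1) * X * (1 + w)) * R :=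
        mul_le_mul_of_nonneg_right hTb hRR0
      _ = _ := mul_comm _ _

end Pool.Agent.Helper96.MP
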