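import Pool.Agent.Helper96.MP.DefsB

/-! Chinese remainder theorem for the projective line over `ℤ/N`. -/

set_option autoImplicit false

namespace Pool.Agent.Helper96.MP

/-- the class of the reduction of a class given by a pair -/
theorem prd_red_mk {N : ℕ} (M : ℕ) (h : M ∣ N) (c d : ℤ) (hu : Uni N c d) (hu' : Uni M c d) :
    pnf_red M h (Quotient.mk (sPN N) ⟨(c, d), hu⟩) = Quotient.mk (sPN M) ⟨(c, d), hu'⟩ := by
  have h1 : eqv N (pnf_out (Quotient.mk (sPN N) ⟨(c, d), hu⟩ : PN N)).1.1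
      (pnf_out (Quotient.mk (sPN N) ⟨(c, d), hu⟩ : PN N)).1.2 c d :=
    Quotient.exact (pnf_out_spec (Quotient.mk (sPN N) ⟨(c, d), hu⟩ : PN N))
  exact Quotient.sound (pnf_eqv_mono h h1)

theorem prd_inj (M N : ℕ) (hc : Nat.Coprime M N) (h1 : M ∣ M * N) (h2 : N ∣ M * N) :
    Function.Injective (fun x : PN (M * N) => (pnf_red M h1 x, pnf_red N h2 x)) := by
  have hcop : IsCoprime (M : ℤ) (N : ℤ) := Nat.isCoprime_iff_coprime.2 hc
  intro x y hxy
  obtain ⟨l2, hl2, a2, b2⟩ := pnf_eqv_of_red h1 (congrArg Prod.fst hxy)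
  obtain ⟨l1, hl1, a1, b1⟩ := pnf_eqv_of_red h2 (congrArg Prod.snd hxy)
  obtain ⟨u, v, huv⟩ := hcop
  have e1 : (N : ℤ) ∣ (l1 * (u * M) + l2 * (v * N)) - l1 := by
    refine ⟨l2 * v - l1 * v, ?_⟩
    linear_combination l1 * huv
  have e2 : (M : ℤ) ∣ (l1 * (u * M) + l2 * (v * N)) - l2 := by
    refine ⟨l1 * u - l2 * u, ?_⟩
    linear_combination l2 * huv
  set l := l1 * (u * M) + l2 * (v * N) with hl
  have hcop' : IsCoprime (M : ℤ) (N : ℤ) := ⟨u, v, huv⟩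
  have c1 : IsCoprime l (N : ℤ) := by
    obtain ⟨k, hk⟩ := e1
    have : l = l1 + (N : ℤ) * k := by linarith
    rw [this]
    exact IsCoprime.add_mul_left_left hl1 k
  have c2 : IsCoprime l (M : ℤ) := by
    obtain ⟨k, hk⟩ := e2
    have : l = l2 + (M : ℤ) * k := by linarith
    rw [this]
    exact IsCoprime.add_mul_left_left hl2 k
  have comb : ∀ (c c' : ℤ), (N : ℤ) ∣ c' - l1 * c → (M : ℤ) ∣ c' - l2 * c →
      ((M * N : ℕ) : ℤ) ∣ c' - l * c := by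
    intro c c' h1 h2
    push_cast
    refine hcop'.mul_dvd ?_ ?_
    · have : c' - l * c = (c' - l2 * c) - (l - l2) * c := by ring
      rw [this]
      exact dvd_sub h2 (Dvd.dvd.mul_right e2 c)
    · have : c' - l * c = (c' - l1 * c) - (l - l1) * c := by ring
      rw [this]
      exact dvd_sub h1 (Dvd.dvd.mul_right e1 c)
  refine pnf_eq_of_eqv ⟨l, ?_, comb _ _ a1 a2, comb _ _ b1 b2⟩
  push_cast
  exact c2.mul_right c1

theorem prd_surj (M N : ℕ) (hc : Nat.Coprime M N) (h1 : M ∣ M * N) (h2 : N ∣ M * N) :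
    Function.Surjective (fun x : PN (M * N) => (pnf_red M h1 x, pnf_red N h2 x)) := by
  obtain ⟨u, v, huv⟩ : IsCoprime (M : ℤ) (N : ℤ) := Nat.isCoprime_iff_coprime.2 hc
  rintro ⟨x, y⟩
  obtain ⟨⟨⟨c1, d1⟩, hu1⟩, rfl⟩ := Quotient.exists_rep x
  obtain ⟨⟨⟨c2, d2⟩, hu2⟩, rfl⟩ := Quotient.exists_rep y
  simp only at hu1 hu2
  -- `c = c1 v N + c2 u M`
  have m1 : ∀ a b : ℤ, (M : ℤ) ∣ (a * (v * N) + b * (u * M)) - a := by
    intro a b
    refine ⟨b * u - a * u, ?_⟩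
    linear_combination a * huv
  have m2 : ∀ a b : ℤ, (N : ℤ) ∣ (a * (v * N) + b * (u * M)) - b := by
    intro a b
    refine ⟨a * v - b * v, ?_⟩
    linear_combination b * huv
  have key : ∀ (L : ℕ) (c d c' d' : ℤ), Uni L c d → (L : ℤ) ∣ c' - c → (L : ℤ) ∣ d' - d →
      Uni L c' d' := by
    intro L c d c' d' hu ha hb
    rw [pnf_uni_iff] at hu ⊢
    obtain ⟨a, b, k, hk⟩ := hu
    obtain ⟨r, hr⟩ := ha
    obtain ⟨s, hs⟩ := hb
    refine ⟨a, b, k - a * r - b * s, ?_⟩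
    linear_combination hk + a * hr + b * hs
  have hM : Uni M (c1 * (v * N) + c2 * (u * M)) (d1 * (v * N) + d2 * (u * M)) :=
    key M c1 d1 _ _ hu1 (m1 _ _) (m1 _ _)
  have hN : Uni N (c1 * (v * N) + c2 * (u * M)) (d1 * (v * N) + d2 * (u * M)) :=
    key N c2 d2 _ _ hu2 (m2 _ _) (m2 _ _)
  have hMN : Uni (M * N) (c1 * (v * N) + c2 * (u * M)) (d1 * (v * N) + d2 * (u * M)) := by
    rw [pnf_uni_iff] at hM hN ⊢
    obtain ⟨a, b, k, hk⟩ := hM
    obtain ⟨a', b', k', hk'⟩ := hN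
    -- `1 = (A + k M) (A' + k' N)`
    refine ⟨a * (a' * (c1 * (v * N) + c2 * (u * M)) + b' * (d1 * (v * N) + d2 * (u * M)) + k' * N)
      + a' * (k * M), b * (a' * (c1 * (v * N) + c2 * (u * M)) + b' * (d1 * (v * N) + d2 * (u * M))
      + k' * N) + b' * (k * M), k * k', ?_⟩
    push_cast
    linear_combination hk + (a * (c1 * (v * N) + c2 * (u * M)) +
      b * (d1 * (v * N) + d2 * (u * M)) + k * M) * hk'
  refine ⟨Quotient.mk (sPN (M * N)) ⟨(c1 * (v * N) + c2 * (u * M),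
    d1 * (v * N) + d2 * (u * M)), hMN⟩, ?_⟩
  refine Prod.ext ?_ ?_
  · show pnf_red M h1 _ = _
    rw [prd_red_mk M h1 _ _ hMN hM]
    refine Quotient.sound ?_
    show eqv M _ _ c1 d1
    refine eqv_symm ⟨1, isCoprime_one_left, ?_, ?_⟩
    · simpa using m1 c1 c2
    · simpa using m1 d1 d2
  · show pnf_red N h2 _ = _
    rw [prd_red_mk N h2 _ _ hMN hN]
    refine Quotient.sound ?_
    show eqv N _ _ c2 d2
    refine eqv_symm ⟨1, isCoprime_one_left, ?_, ?_⟩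
    · simpa using m2 c1 c2
    · simpa using m2 d1 d2

theorem st_PRD : ST_PRD := fun M N _ _ hc h1 h2 => ⟨prd_inj M N hc h1 h2, prd_surj M N hc h1 h2⟩

end Pool.Agent.Helper96.MP
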