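import Mathlib
import Pool.Agent.Helper96.MP.Defs

/-!
# MP_bde085_nt, module SCARD: size of `S_n`
-/

set_option autoImplicit false

namespace Pool.Agent.Helper53.MP

open Pool.Agent.Helper96.MP

lemma mem_Sn {n : ℕ} {m : ℕ × ℕ × ℕ × ℕ} : m ∈ Sn n ↔
    (m.1 ≤ n ∧ m.2.1 ≤ n ∧ m.2.2.1 ≤ n ∧ m.2.2.2 ≤ n) ∧
      m.2.1 < m.1 ∧ m.2.2.1 < m.2.2.2 ∧ m.1 * m.2.2.2 = n + m.2.1 * m.2.2.1 := by
  unfold Sn
  simp only [Finset.mem_filter, Finset.mem_product, Finset.mem_range, Nat.lt_succ_iff]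

lemma Sn_lower (n : ℕ) (hn : 1 ≤ n) : n ≤ (Sn n).card := by
  have h : (Finset.range n).card ≤ (Sn n).card := by
    refine Finset.card_le_card_of_injOn (fun b => (n, b, 0, 1)) ?_ ?_
    · intro b hb
      have hb' : b < n := by simpa using hb
      rw [Finset.mem_coe, mem_Sn]
      simp only
      refine ⟨⟨le_refl _, hb'.le, Nat.zero_le _, hn⟩, hb', Nat.zero_lt_one, by ring⟩
    · intro b _ b' _ h
      simpa using h
  simpa using h

lemma Sn_zero (n : ℕ) (hn : 1 ≤ n) : ((Sn n).filter (fun m => m.2.2.1 = 0)).card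
    ≤ n.divisors.card * (n + 1) := by
  have h : ((Sn n).filter (fun m => m.2.2.1 = 0)).card ≤
      (n.divisors ×ˢ Finset.range (n + 1)).card := by
    refine Finset.card_le_card_of_injOn (fun m => (m.1, m.2.1)) ?_ ?_
    · rintro ⟨a, b, c, d⟩ hm
      rw [Finset.mem_coe, Finset.mem_filter, mem_Sn] at hm
      simp only at hm
      obtain ⟨⟨⟨h1, h2, h3, h4⟩, h5, h6, h7⟩, rfl⟩ := hm
      rw [mul_zero, add_zero] at h7
      simp only [Finset.coe_product, Set.mem_prod, Finset.mem_coe, Nat.mem_divisors,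
        Finset.mem_range]
      exact ⟨⟨⟨d, h7.symm⟩, by omega⟩, by omega⟩
    · rintro ⟨a, b, c, d⟩ hm ⟨a', b', c', d'⟩ hm' hh
      rw [Finset.mem_coe, Finset.mem_filter, mem_Sn] at hm hm'
      simp only at hm hm'
      obtain ⟨⟨_, h5, h6, h7⟩, rfl⟩ := hm
      obtain ⟨⟨_, h5', h6', h7'⟩, rfl⟩ := hm'
      simp only [Prod.mk.injEq] at hh
      obtain ⟨rfl, rfl⟩ := hh
      have ha : 0 < a := by omega
      have : d = d' := by
        apply Nat.eq_of_mul_eq_mul_left ha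
        rw [h7, h7']
      rw [this]
  simpa using h

lemma Sn_pos (n : ℕ) (hn : 1 ≤ n) : ((Sn n).filter (fun m => ¬ m.2.2.1 = 0)).card
    ≤ ∑ m ∈ Finset.Ico 1 n, m.divisors.card * (n - m).divisors.card := by
  have h : ((Sn n).filter (fun m => ¬ m.2.2.1 = 0)).card ≤
      ((Finset.Ico 1 n).sigma (fun m => m.divisors ×ˢ (n - m).divisors)).card := by
    refine Finset.card_le_card_of_injOn
      (fun m => ⟨m.1 * (m.2.2.2 - m.2.2.1), (m.1, m.2.2.1)⟩) ?_ ?_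
    · rintro ⟨a, b, c, d⟩ hm
      rw [Finset.mem_coe, Finset.mem_filter, mem_Sn] at hm
      simp only at hm
      obtain ⟨⟨_, h5, h6, h7⟩, h8⟩ := hm
      obtain ⟨e, rfl⟩ := Nat.exists_eq_add_of_lt h6
      obtain ⟨g, rfl⟩ := Nat.exists_eq_add_of_lt h5
      have hn' : n = (b + g + 1) * (e + 1) + c * (g + 1) := by nlinarith
      have hc : 0 < c * (g + 1) := by positivity
      have hx : 0 < (b + g + 1) * (e + 1) := by positivity
      have h1 : c + e + 1 - c = e + 1 := by omega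
      simp only [Finset.coe_sigma, Set.mem_sigma_iff, Finset.mem_coe, Finset.mem_Ico,
        Finset.mem_product, Nat.mem_divisors, h1]
      have h2 : n - (b + g + 1) * (e + 1) = c * (g + 1) := by omega
      rw [h2]
      exact ⟨⟨by omega, by omega⟩, ⟨dvd_mul_right _ _, by omega⟩, ⟨dvd_mul_right _ _, by omega⟩⟩
    · rintro ⟨a, b, c, d⟩ hm ⟨a', b', c', d'⟩ hm' hh
      rw [Finset.mem_coe, Finset.mem_filter, mem_Sn] at hm hm'
      simp only at hm hm'
      obtain ⟨⟨_, h5, h6, h7⟩, h8⟩ := hm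
      obtain ⟨⟨_, h5', h6', h7'⟩, h8'⟩ := hm'
      simp only [Sigma.mk.injEq, heq_eq_eq, Prod.mk.injEq] at hh
      obtain ⟨hh1, rfl, rfl⟩ := hh
      have ha : 0 < a := by omega
      have h9 : d - c = d' - c := Nat.eq_of_mul_eq_mul_left ha hh1
      have h10 : d = d' := by omega
      subst h10
      have h11 : b * c = b' * c := by omega
      have h12 : b = b' := Nat.eq_of_mul_eq_mul_right (Nat.pos_of_ne_zero h8) h11
      rw [h12]
  rw [Finset.card_sigma] at h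
  simpa [Finset.card_product] using h

theorem st_SCARD (hD : ST_DIVB) : ST_SCARD := by
  obtain ⟨C, hC, hdiv⟩ := hD
  refine ⟨2 * C + C ^ 2, by positivity, fun n hn => ⟨Sn_lower n hn, ?_⟩⟩
  have hn' : (1 : ℝ) ≤ n := by exact_mod_cast hn
  have hn0 : (0 : ℝ) < n := by linarith
  have h0 : (Sn n).card = ((Sn n).filter (fun m => m.2.2.1 = 0)).card
      + ((Sn n).filter (fun m => ¬ m.2.2.1 = 0)).card :=
    (Finset.card_filter_add_card_filter_not _).symm
  have h1 : (((Sn n).filter (fun m => m.2.2.1 = 0)).card : ℝ) ≤ 2 * C * (n : ℝ) ^ (9 / 8 : ℝ) := by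
    have h2 : (((Sn n).filter (fun m => m.2.2.1 = 0)).card : ℝ) ≤ (n.divisors.card : ℝ) * (n + 1) := by
      exact_mod_cast Sn_zero n hn
    have h3 := hdiv n hn
    calc (((Sn n).filter (fun m => m.2.2.1 = 0)).card : ℝ)
        ≤ (n.divisors.card : ℝ) * (n + 1) := h2
      _ ≤ (C * (n : ℝ) ^ (1 / 16 : ℝ)) * (2 * n) :=
          mul_le_mul h3 (by linarith) (by positivity) (by positivity)
      _ = 2 * C * ((n : ℝ) ^ (1 / 16 : ℝ) * (n : ℝ) ^ (1 : ℝ)) := by rw [Real.rpow_one]; ring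
      _ = 2 * C * (n : ℝ) ^ (17 / 16 : ℝ) := by
          rw [← Real.rpow_add hn0]; norm_num
      _ ≤ 2 * C * (n : ℝ) ^ (9 / 8 : ℝ) :=
          mul_le_mul_of_nonneg_left (Real.rpow_le_rpow_of_exponent_le hn' (by norm_num))
            (by positivity)
  have h2 : (((Sn n).filter (fun m => ¬ m.2.2.1 = 0)).card : ℝ) ≤ C ^ 2 * (n : ℝ) ^ (9 / 8 : ℝ) := by
    have h3 : (((Sn n).filter (fun m => ¬ m.2.2.1 = 0)).card : ℝ)
        ≤ ∑ m ∈ Finset.Ico 1 n, (m.divisors.card : ℝ) * ((n - m).divisors.card : ℝ) := by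
      exact_mod_cast Sn_pos n hn
    have h4 : ∀ m ∈ Finset.Ico 1 n, (m.divisors.card : ℝ) * ((n - m).divisors.card : ℝ)
        ≤ C ^ 2 * (n : ℝ) ^ (1 / 8 : ℝ) := by
      intro m hm
      rw [Finset.mem_Ico] at hm
      have key : ∀ k : ℕ, 1 ≤ k → k ≤ n → (k.divisors.card : ℝ) ≤ C * (n : ℝ) ^ (1 / 16 : ℝ) := by
        intro k hk hkn
        refine (hdiv k hk).trans (mul_le_mul_of_nonneg_left ?_ hC.le)
        exact Real.rpow_le_rpow (by positivity) (by exact_mod_cast hkn) (by norm_num)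
      calc (m.divisors.card : ℝ) * ((n - m).divisors.card : ℝ)
          ≤ (C * (n : ℝ) ^ (1 / 16 : ℝ)) * (C * (n : ℝ) ^ (1 / 16 : ℝ)) :=
            mul_le_mul (key m hm.1 hm.2.le) (key (n - m) (by omega) (by omega))
              (by positivity) (by positivity)
        _ = C ^ 2 * ((n : ℝ) ^ (1 / 16 : ℝ) * (n : ℝ) ^ (1 / 16 : ℝ)) := by ring
        _ = C ^ 2 * (n : ℝ) ^ (1 / 8 : ℝ) := by
            rw [← Real.rpow_add hn0]; norm_num
    calc (((Sn n).filter (fun m => ¬ m.2.2.1 = 0)).card : ℝ)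
        ≤ ∑ m ∈ Finset.Ico 1 n, (m.divisors.card : ℝ) * ((n - m).divisors.card : ℝ) := h3
      _ ≤ ∑ m ∈ Finset.Ico 1 n, C ^ 2 * (n : ℝ) ^ (1 / 8 : ℝ) := Finset.sum_le_sum h4
      _ = ((n - 1 : ℕ) : ℝ) * (C ^ 2 * (n : ℝ) ^ (1 / 8 : ℝ)) := by
          rw [Finset.sum_const, Nat.card_Ico, nsmul_eq_mul]
      _ ≤ (n : ℝ) * (C ^ 2 * (n : ℝ) ^ (1 / 8 : ℝ)) :=
          mul_le_mul_of_nonneg_right (by exact_mod_cast Nat.sub_le n 1) (by positivity)
      _ = C ^ 2 * ((n : ℝ) ^ (1 : ℝ) * (n : ℝ) ^ (1 / 8 : ℝ)) := by rw [Real.rpow_one]; ring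
      _ = C ^ 2 * (n : ℝ) ^ (9 / 8 : ℝ) := by
          rw [← Real.rpow_add hn0]; norm_num
  rw [h0]
  push_cast
  linarith

end Pool.Agent.Helper53.MP
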